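import Pool.Agent.Y123.ST.Block
import Pool.Agent.Y118.HP.Fin

/-!
# Statements of two independent lemmas (stubs) of the project EF
-/

set_option autoImplicit false

open Matrix

namespace Pool.Agent.T44.EF

open Pool.Agent.Y118.HP Pool.Agent.Y123.ST

/-- stub CODIM: a subalgebra of the symplectic Lie algebra of codimension at most `g = n / 2` is everything (`n ≥ 4`) -/
def S_CODIM : Prop := ∀ (n : ℕ), Even n → 4 ≤ n → ∀ H : Submodule ℂ (Matrix (Fin n) (Fin n) ℂ),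
  (∀ X ∈ H, ∀ Y ∈ H, X * Y - Y * X ∈ H) →
  (∀ v : Fin (n / 2 + 1) → (Fin n → ℂ), ¬ LinearIndependent ℂ (fun i => H.mkQ (EE (v i)))) →
  ∀ v : Fin n → ℂ, EE v ∈ H

/-- stub DICK: the periods of `y² = D_(n+1)(x)`, `D` the Dickson polynomial, are of torus type -/
def S_DICK : Prop := ∀ (n : ℕ), Even n → 4 ≤ n → ∃ (f : Polynomial ℚ) (a : Fin n → ℝ) (m : Fin (n + 1)),
  Polynomial.X * f = Polynomial.dickson 1 1 (n + 1) ∧ StrictMono (er a m 0) ∧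
  f.map (algebraMap ℚ ℝ) = ∏ i, (Polynomial.X - Polynomial.C (a i)) ∧
  ∃ (U V : Matrix (Fin n) (Fin n) ℂ) (θ : Fin (n / 2) → ℂ) (e : Fin n → Fin (n / 2) → ℤ) (lam : ℂ),
    (∀ i j, IsAlgebraic ℚ (U i j)) ∧ (∀ i j, IsAlgebraic ℚ (V i j)) ∧ IsUnit U.det ∧ IsUnit V.det ∧
    lam ≠ 0 ∧ (∀ j, θ j ≠ 0) ∧
    Matrix.of (cper (er a m 0)) = lam • (U * diagonal (fun k => ∏ j, θ j ^ e k j) * V)

end Pool.Agent.T44.EF
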