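import Pool.Agent.Y124.TH.Ba
import Pool.Agent.Y123.ST.Full3

/-!
# Relations of bounded degree over fields of bounded degree
-/

set_option autoImplicit false

open Matrix

namespace Pool.Agent.T44.EF

open Pool.Agent.Y118.HP Pool.Agent.Y123.ST Pool.Agent.TH119.MX

variable {n N : ℕ}

/-- irreducibility of the product of the symplectic groups -/
theorem irrS (hn : Even n) (P Q : MvPolynomial (Fin N × Fin n × Fin n) ℂ)
    (h : ∀ g : Fin N → Matrix (Fin n) (Fin n) ℂ, (∀ l, g l ∈ SpS ℂ n) →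
      MvPolynomial.eval (cd g) P * MvPolynomial.eval (cd g) Q = 0) :
    (∀ g : Fin N → Matrix (Fin n) (Fin n) ℂ, (∀ l, g l ∈ SpS ℂ n) → MvPolynomial.eval (cd g) P = 0) ∨
    (∀ g : Fin N → Matrix (Fin n) (Fin n) ℂ, (∀ l, g l ∈ SpS ℂ n) → MvPolynomial.eval (cd g) Q = 0) := by
  classical
  by_contra hcon
  push Not at hcon
  obtain ⟨⟨g0, hg0, hP0⟩, ⟨g1, hg1, hQ1⟩⟩ := hcon
  have hpath : ∀ j, ∃ G : Matrix (Fin n) (Fin n) (Polynomial ℂ), G.map (Polynomial.eval 0) = 1 ∧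
      G.map (Polynomial.eval 1) = g1 j * (g0 j)⁻¹ ∧ ∀ s, G.map (Polynomial.eval s) ∈ SpS ℂ n := fun j =>
    exists_path hn _ (SpS_mul (hg1 j) (Pool.Agent.Y118.HP.SpS_inv hn (hg0 j)).1)
  choose G hG0 hG1 hGS using hpath
  set gs : Fin N × Fin n × Fin n → Polynomial ℂ := fun x => (G x.1 * (g0 x.1).map Polynomial.C) x.2.1 x.2.2 with hgs
  have hev : ∀ (R : MvPolynomial (Fin N × Fin n × Fin n) ℂ) (s : ℂ), (MvPolynomial.aeval gs R : Polynomial ℂ).eval s =
      MvPolynomial.eval (cd (fun j => (G j).map (Polynomial.eval s) * g0 j)) R := by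
    intro R s
    have h1 := MvPolynomial.comp_aeval_apply (f := gs) (Polynomial.aeval s : Polynomial ℂ →ₐ[ℂ] ℂ) R
    rw [Polynomial.coe_aeval_eq_eval] at h1
    rw [h1, MvPolynomial.aeval_eq_eval]
    congr 2
    funext x
    simp [gs, cd, Matrix.mul_apply, Polynomial.eval_finsetSum]
  have hPs0 : (MvPolynomial.aeval gs P : Polynomial ℂ) ≠ 0 := by
    intro h0
    apply hP0
    have h1 := hev P 0
    rw [h0, Polynomial.eval_zero] at h1
    have h3 : (fun j => (G j).map (Polynomial.eval 0) * g0 j) = g0 := by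
      funext j; rw [hG0, one_mul]
    rw [h3] at h1
    exact h1.symm
  have hQs0 : (MvPolynomial.aeval gs Q : Polynomial ℂ) ≠ 0 := by
    intro h0
    apply hQ1
    have h1 := hev Q 1
    rw [h0, Polynomial.eval_zero] at h1
    have h3 : (fun j => (G j).map (Polynomial.eval 1) * g0 j) = g1 := by
      funext j; rw [hG1, Matrix.mul_assoc, (Pool.Agent.Y118.HP.SpS_inv hn (hg0 j)).2, mul_one]
    rw [h3] at h1
    exact h1.symm
  obtain ⟨s, hs⟩ : ∃ s : ℂ, ((MvPolynomial.aeval gs P : Polynomial ℂ) * (MvPolynomial.aeval gs Q : Polynomial ℂ)).eval s ≠ 0 := by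
    by_contra hall
    push Not at hall
    exact mul_ne_zero hPs0 hQs0 (Polynomial.funext fun s => by rw [hall s, Polynomial.eval_zero])
  rw [Polynomial.eval_mul, hev, hev] at hs
  exact hs (h _ fun l => SpS_mul (hGS l s) (hg0 l))

/-- irreducibility, products -/
theorem irrS_prod (hn : Even n) {ι : Type*} (s : Finset ι) (P : ι → MvPolynomial (Fin N × Fin n × Fin n) ℂ)
    (h : ∀ g : Fin N → Matrix (Fin n) (Fin n) ℂ, (∀ l, g l ∈ SpS ℂ n) → MvPolynomial.eval (cd g) (∏ i ∈ s, P i) = 0) :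
    ∃ i ∈ s, ∀ g : Fin N → Matrix (Fin n) (Fin n) ℂ, (∀ l, g l ∈ SpS ℂ n) → MvPolynomial.eval (cd g) (P i) = 0 := by
  classical
  induction s using Finset.induction_on with
  | empty =>
    exfalso
    have := h (fun _ => 1) (fun _ => SpS_one)
    rw [Finset.prod_empty, map_one] at this
    exact one_ne_zero this
  | insert i s hi ih =>
    rcases irrS hn (P i) (∏ i ∈ s, P i) (fun g hg => by
      have := h g hg
      rw [Finset.prod_insert hi, map_mul] at this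
      exact this) with h1 | h1
    · exact ⟨i, Finset.mem_insert_self _ _, h1⟩
    · obtain ⟨k, hk, hk2⟩ := ih h1
      exact ⟨k, Finset.mem_insert_of_mem hk, hk2⟩

/-- relations over `ℚ` -/
theorem genQ {κ : Type} [Fintype κ] {D0 : ℕ} {b : κ → Fin n × Fin n → ℕ} {w : (Fin n × Fin n → ℕ) → κ → ℚ}
    (hw : ∀ s, dg s ≤ D0 → ∀ g ∈ SpS ℂ n, mnm g s = ∑ k, (w s k : ℂ) * mnm g (b k))
    {y : Fin N → Matrix (Fin n) (Fin n) ℂ} (hy : ∀ l, y l ∈ SpS ℂ n)
    (hli : LinearIndependent ℚ (fun e : Fin N → κ => ∏ i, mnm (y i) (b (e i))))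
    (P : MvPolynomial (Fin N × Fin n × Fin n) ℂ) (hP : ∀ m, P.coeff m ∈ (⊥ : Subfield ℂ)) (hD : P.totalDegree ≤ D0)
    (h0 : MvPolynomial.eval (cd y) P = 0) (Y : Fin N → Matrix (Fin n) (Fin n) ℂ) (hY : ∀ l, Y l ∈ SpS ℂ n) :
    MvPolynomial.eval (cd Y) P = 0 := by
  classical
  have hq : ∀ m, ∃ q : ℚ, (q : ℂ) = P.coeff m := by
    intro m
    have h1 := hP m
    rw [Subfield.bot_eq_of_charZero] at h1
    obtain ⟨q, hq⟩ := h1
    exact ⟨q, by rw [← hq]; rfl⟩
  choose q hq using hq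
  have hexp : ∀ g : Fin N → Matrix (Fin n) (Fin n) ℂ, (∀ l, g l ∈ SpS ℂ n) → MvPolynomial.eval (cd g) P =
      ∑ e : Fin N → κ, (((∑ m ∈ P.support, q m * ∏ l, w (fun p => m (l, p.1, p.2)) (e l) : ℚ)) : ℂ) *
        ∏ l, mnm (g l) (b (e l)) := by
    intro g hg
    rw [MvPolynomial.eval_eq']
    have h1 : ∀ m ∈ P.support, P.coeff m * ∏ x, cd g x ^ m x =
        ∑ e : Fin N → κ, (((q m * ∏ l, w (fun p => m (l, p.1, p.2)) (e l) : ℚ)) : ℂ) * ∏ l, mnm (g l) (b (e l)) := by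
      intro m hm
      have h2 : ∏ x, cd g x ^ m x = ∏ l, mnm (g l) (fun p => m (l, p.1, p.2)) := by
        rw [Fintype.prod_prod_type]
        rfl
      have h3 : ∀ l, mnm (g l) (fun p => m (l, p.1, p.2)) =
          ∑ k, (w (fun p => m (l, p.1, p.2)) k : ℂ) * mnm (g l) (b k) := by
        intro l
        refine hw _ ?_ (g l) (hg l)
        refine le_trans ?_ ((MvPolynomial.le_totalDegree hm).trans hD)
        rw [Finsupp.sum_fintype _ _ (fun _ => rfl), Fintype.sum_prod_type]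
        exact Finset.single_le_sum (f := fun l => ∑ y : Fin n × Fin n, m (l, y)) (fun _ _ => Nat.zero_le _) (Finset.mem_univ l)
      rw [h2, Finset.prod_congr rfl fun l _ => h3 l, Finset.prod_univ_sum, Fintype.piFinset_univ, Finset.mul_sum, ← hq]
      refine Finset.sum_congr rfl fun e _ => ?_
      rw [Finset.prod_mul_distrib]
      push_cast
      ring
    rw [Finset.sum_congr rfl h1, Finset.sum_comm]
    refine Finset.sum_congr rfl fun e _ => ?_
    push_cast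
    rw [Finset.sum_mul]
  rw [hexp y hy] at h0
  have h2 := (Fintype.linearIndependent_iff.1 hli) (fun e => ∑ m ∈ P.support, q m * ∏ l, w (fun p => m (l, p.1, p.2)) (e l)) (by
    rw [← h0]
    refine Finset.sum_congr rfl fun e _ => ?_
    rw [Rat.smul_def])
  rw [hexp Y hY]
  refine Finset.sum_eq_zero fun e _ => ?_
  rw [h2 e, Rat.cast_zero, zero_mul]

/-- relations of degree at most `δ` over fields of degree at most `D` hold on the product of the symplectic groups -/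
def Gen (y : Fin N → Matrix (Fin n) (Fin n) ℂ) (δ D : ℕ) : Prop :=
  ∀ F : Subfield ℂ, FiniteDimensional ℚ F → Module.finrank ℚ F ≤ D →
    ∀ P : MvPolynomial (Fin N × Fin n × Fin n) ℂ, (∀ m, P.coeff m ∈ F) → P.totalDegree ≤ δ →
      MvPolynomial.eval (cd y) P = 0 →
      ∀ Y : Fin N → Matrix (Fin n) (Fin n) ℂ, (∀ l, Y l ∈ SpS ℂ n) → MvPolynomial.eval (cd Y) P = 0

theorem gen_of_li (hn : Even n) {κ : Type} [Fintype κ] {D0 : ℕ} {b : κ → Fin n × Fin n → ℕ}
    {w : (Fin n × Fin n → ℕ) → κ → ℚ}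
    (hw : ∀ s, dg s ≤ D0 → ∀ g ∈ SpS ℂ n, mnm g s = ∑ k, (w s k : ℂ) * mnm g (b k))
    {y : Fin N → Matrix (Fin n) (Fin n) ℂ} (hy : ∀ l, y l ∈ SpS ℂ n)
    (hli : LinearIndependent ℚ (fun e : Fin N → κ => ∏ i, mnm (y i) (b (e i)))) {δ D : ℕ} (hD0 : D * δ ≤ D0) :
    Gen y δ D := by
  classical
  intro F hF hFD P hP hd h0 Y hY
  have hNF : NumberField F := { to_charZero := inferInstance, to_finiteDimensional := hF }
  set f : (ℂ ≃+* ℂ) → MvPolynomial (Fin N × Fin n × Fin n) ℂ := fun σ => P.map (σ : ℂ →+* ℂ) with hf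
  obtain ⟨P0, hP0⟩ := exists_map P hP
  have hsub : Set.range f ⊆ ((Finset.univ.image (fun φ : F →+* ℂ => P0.map φ) : Finset _) : Set _) := by
    rintro _ ⟨σ, rfl⟩
    rw [Finset.coe_image, Finset.coe_univ, Set.image_univ]
    refine ⟨(σ : ℂ →+* ℂ).comp (algebraMap F ℂ), ?_⟩
    simp only [hf]
    rw [← hP0, MvPolynomial.map_map]
  have hfin : (Set.range f).Finite := Set.Finite.subset (Finset.finite_toSet _) hsub
  set O := hfin.toFinset with hO
  have hmem : ∀ Q, Q ∈ O ↔ ∃ σ, f σ = Q := fun Q => by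
    rw [hO, Set.Finite.mem_toFinset]
    rfl
  have hcard : O.card ≤ D := by
    have h1 : O ⊆ Finset.univ.image (fun φ : F →+* ℂ => P0.map φ) := by
      intro Q hQ
      have := hsub ((Set.Finite.mem_toFinset _).1 hQ)
      exact_mod_cast this
    refine (Finset.card_le_card h1).trans (Finset.card_image_le.trans ?_)
    rw [Finset.card_univ, NumberField.Embeddings.card]
    exact hFD
  set Nn := ∏ Q ∈ O, Q with hNn
  have hmap : ∀ τ : ℂ ≃+* ℂ, Nn.map (τ : ℂ →+* ℂ) = Nn := by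
    intro τ
    rw [hNn, map_prod]
    refine Finset.prod_bij (fun Q _ => Q.map (τ : ℂ →+* ℂ)) ?_ ?_ ?_ (fun _ _ => rfl)
    · intro Q hQ
      obtain ⟨σ, rfl⟩ := (hmem Q).1 hQ
      refine (hmem _).2 ⟨σ.trans τ, ?_⟩
      simp only [hf]
      rw [MvPolynomial.map_map]
      rfl
    · intro Q _ Q' _ h
      exact MvPolynomial.map_injective _ τ.injective h
    · intro Q hQ
      obtain ⟨σ, rfl⟩ := (hmem Q).1 hQ
      refine ⟨f (σ.trans τ.symm), (hmem _).2 ⟨_, rfl⟩, ?_⟩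
      simp only [hf]
      rw [MvPolynomial.map_map]
      have h3 : (τ : ℂ →+* ℂ).comp ((σ.trans τ.symm : ℂ ≃+* ℂ) : ℂ →+* ℂ) = (σ : ℂ →+* ℂ) := by
        refine RingHom.ext fun z => ?_
        simp
      rw [h3]
  have hcoef : ∀ m, Nn.coeff m ∈ (⊥ : Subfield ℂ) := by
    intro m
    by_contra hcon
    obtain ⟨τ, -, hτ⟩ := exists_move hcon
    apply hτ
    have h1 := congrArg (MvPolynomial.coeff m) (hmap τ)
    rwa [MvPolynomial.coeff_map] at h1
  have hdeg1 : ∀ Q ∈ O, MvPolynomial.totalDegree Q ≤ δ := by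
    intro Q hQ
    obtain ⟨σ, rfl⟩ := (hmem Q).1 hQ
    refine le_trans ?_ hd
    unfold MvPolynomial.totalDegree
    rw [MvPolynomial.support_map_of_injective P (σ : ℂ →+* ℂ).injective]
  have hdeg : Nn.totalDegree ≤ D0 := by
    refine (MvPolynomial.totalDegree_finsetProd _ _).trans ?_
    refine (Finset.sum_le_card_nsmul O _ δ hdeg1).trans ?_
    rw [smul_eq_mul]
    exact (Nat.mul_le_mul_right _ hcard).trans hD0
  have hPO : P ∈ O := (hmem P).2 ⟨RingEquiv.refl ℂ, MvPolynomial.map_id P⟩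
  have hNy : MvPolynomial.eval (cd y) Nn = 0 := by
    rw [hNn, map_prod]
    exact Finset.prod_eq_zero hPO h0
  have hall := genQ hw hy hli Nn hcoef hdeg hNy
  obtain ⟨Q, hQ, hQ0⟩ := irrS_prod hn O (fun Q => Q) hall
  obtain ⟨σ, rfl⟩ := (hmem Q).1 hQ
  have h1 := hQ0 (fun l => (Y l).map (σ : ℂ →+* ℂ)) (fun l => SpS_map (σ : ℂ →+* ℂ) (hY l))
  have h2 := eval_aut' σ P (cd Y)
  have h3 : (fun b => σ (cd Y b)) = cd (fun l => (Y l).map (σ : ℂ →+* ℂ)) := rfl
  rw [h3] at h2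
  have h4 : σ (MvPolynomial.eval (cd Y) P) = 0 := h2.trans h1
  exact (map_eq_zero σ).1 h4

theorem Gen.mono {y : Fin N → Matrix (Fin n) (Fin n) ℂ} {δ D δ' D' : ℕ} (h : Gen y δ D) (h1 : δ' ≤ δ) (h2 : D' ≤ D) :
    Gen y δ' D' := fun F hF hFD P hP hd => h F hF (hFD.trans h2) P hP (hd.trans h1)

end Pool.Agent.T44.EF
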