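import Pool.Agent.T44.EF.Ten
import Pool.Agent.T44.EF.Gen

/-!
# Block matrices acting on homogeneous polynomials
-/

set_option autoImplicit false
set_option linter.unusedSectionVars false

open Matrix

namespace Pool.Agent.T44.EF

open Pool.Agent.Y118.HP Pool.Agent.Y123.ST

variable {n N d : ℕ}

/-- the variables -/
abbrev VV (n N : ℕ) : Type := Fin N × Fin n × Fin n

/-- right multiplication by a family of matrices -/
def Gb (g : Fin N → Matrix (Fin n) (Fin n) ℂ) : Matrix (VV n N) (VV n N) ℂ :=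
  Matrix.of fun v w => if v.1 = w.1 ∧ v.2.1 = w.2.1 then g v.1 v.2.2 w.2.2 else 0

theorem Gb_apply (g : Fin N → Matrix (Fin n) (Fin n) ℂ) (v w : VV n N) :
    Gb g v w = if v.1 = w.1 ∧ v.2.1 = w.2.1 then g v.1 v.2.2 w.2.2 else 0 := rfl

theorem sum_block (F : VV n N → ℂ) (j : Fin N) (i : Fin n) :
    ∑ v : VV n N, (if v.1 = j ∧ v.2.1 = i then F v else 0) = ∑ m, F (j, i, m) := by
  rw [Fintype.sum_prod_type, Finset.sum_eq_single j]
  · rw [Fintype.sum_prod_type, Finset.sum_eq_single i]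
    · simp
    · intro b _ hb
      exact Finset.sum_eq_zero fun m _ => by simp [hb]
    · intro h
      exact absurd (Finset.mem_univ _) h
  · intro b _ hb
    exact Finset.sum_eq_zero fun m _ => by simp [hb]
  · intro h
    exact absurd (Finset.mem_univ _) h

theorem cd_Gb (X g : Fin N → Matrix (Fin n) (Fin n) ℂ) : cd X ᵥ* Gb g = cd (X * g) := by
  funext w
  show ∑ v, cd X v * Gb g v w = _
  have h1 : ∀ v : VV n N, cd X v * Gb g v w = if v.1 = w.1 ∧ v.2.1 = w.2.1 then cd X v * g v.1 v.2.2 w.2.2 else 0 := by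
    intro v
    rw [Gb_apply]
    split_ifs
    · rfl
    · rw [mul_zero]
  rw [Finset.sum_congr rfl fun v _ => h1 v, sum_block (fun v => cd X v * g v.1 v.2.2 w.2.2)]
  rfl

theorem Gb_mul (g h : Fin N → Matrix (Fin n) (Fin n) ℂ) : Gb g * Gb h = Gb (g * h) := by
  ext v w
  rw [Matrix.mul_apply]
  have h1 : ∀ u : VV n N, Gb g v u * Gb h u w =
      if u.1 = v.1 ∧ u.2.1 = v.2.1 then (if v.1 = w.1 ∧ v.2.1 = w.2.1 then g v.1 v.2.2 u.2.2 * h v.1 u.2.2 w.2.2 else 0) else 0 := by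
    intro u
    rw [Gb_apply, Gb_apply]
    by_cases h2 : u.1 = v.1 ∧ u.2.1 = v.2.1
    · rw [if_pos ⟨h2.1.symm, h2.2.symm⟩, if_pos h2, h2.1, h2.2]
      split_ifs
      · rfl
      · rw [mul_zero]
    · rw [if_neg (fun h3 => h2 ⟨h3.1.symm, h3.2.symm⟩), if_neg h2, zero_mul]
  rw [Finset.sum_congr rfl fun u _ => h1 u,
    sum_block (fun u => if v.1 = w.1 ∧ v.2.1 = w.2.1 then g v.1 v.2.2 u.2.2 * h v.1 u.2.2 w.2.2 else 0), Gb_apply]
  split_ifs
  · rw [Pi.mul_apply, Matrix.mul_apply]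
  · exact Finset.sum_const_zero

theorem Gb_one : Gb (1 : Fin N → Matrix (Fin n) (Fin n) ℂ) = 1 := by
  ext v w
  rw [Gb_apply, Pi.one_apply, Matrix.one_apply, Matrix.one_apply]
  by_cases h : v = w
  · rw [if_pos h, h]
    simp
  · rw [if_neg h]
    by_cases h1 : v.1 = w.1 ∧ v.2.1 = w.2.1
    · rw [if_pos h1, if_neg]
      intro h2
      exact h (Prod.ext h1.1 (Prod.ext h1.2 h2))
    · rw [if_neg h1]

theorem Gb_add (g h : Fin N → Matrix (Fin n) (Fin n) ℂ) : Gb (g + h) = Gb g + Gb h := by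
  ext v w
  rw [Matrix.add_apply, Gb_apply, Gb_apply, Gb_apply]
  split_ifs
  · rfl
  · rw [add_zero]

theorem Gb_smul (c : ℂ) (g : Fin N → Matrix (Fin n) (Fin n) ℂ) : Gb (c • g) = c • Gb g := by
  ext v w
  rw [Matrix.smul_apply, Gb_apply, Gb_apply]
  split_ifs
  · rfl
  · rw [smul_zero]

theorem Gb_sub (g h : Fin N → Matrix (Fin n) (Fin n) ℂ) : Gb (g - h) = Gb g - Gb h := by
  rw [sub_eq_add_neg, sub_eq_add_neg, Gb_add]
  congr 1
  have := Gb_smul (-1) h
  rwa [neg_one_smul, neg_one_smul] at this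

/-- evaluation of a tensor at a family of matrices -/
def Fx (a : (Fin d → VV n N) → ℂ) (X : Fin N → Matrix (Fin n) (Fin n) ℂ) : ℂ := Fm a (fun _ => cd X)

theorem Fx_rh (g : Fin N → Matrix (Fin n) (Fin n) ℂ) (a : (Fin d → VV n N) → ℂ)
    (X : Fin N → Matrix (Fin n) (Fin n) ℂ) : Fx (rh (Gb g) a) X = Fx a (X * g) := by
  unfold Fx rh
  rw [Fm_rhf, cd_Gb]

theorem Fm_smul' {V : Type} [Fintype V] (c : ℂ) (a : (Fin d → V) → ℂ) (z : Fin d → V → ℂ) :
    Fm (c • a) z = c * Fm a z := by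
  unfold Fm
  rw [Finset.mul_sum]
  exact Finset.sum_congr rfl fun I _ => by rw [Pi.smul_apply, smul_eq_mul, mul_assoc]

theorem Fm_add' {V : Type} [Fintype V] (a b : (Fin d → V) → ℂ) (z : Fin d → V → ℂ) :
    Fm (a + b) z = Fm a z + Fm b z := by
  unfold Fm
  rw [← Finset.sum_add_distrib]
  exact Finset.sum_congr rfl fun I _ => by rw [Pi.add_apply, add_mul]

theorem Fm_sum' {V : Type} [Fintype V] {ι : Type*} (s : Finset ι) (a : ι → (Fin d → V) → ℂ) (z : Fin d → V → ℂ) :
    Fm (∑ i ∈ s, a i) z = ∑ i ∈ s, Fm (a i) z := by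
  classical
  induction s using Finset.induction_on with
  | empty => simp [Fm]
  | insert i s hi ih => rw [Finset.sum_insert hi, Finset.sum_insert hi, Fm_add', ih]

theorem Fm_unit {V : Type} [Fintype V] [DecidableEq V] (I0 : Fin d → V) (z : Fin d → V → ℂ) :
    Fm (Pi.single I0 1) z = ∏ t, z t (I0 t) := by
  unfold Fm
  rw [Finset.sum_eq_single I0]
  · rw [Pi.single_eq_same, one_mul]
  · intro I _ hI
    rw [Pi.single_eq_of_ne hI, zero_mul]
  · intro h
    exact absurd (Finset.mem_univ _) h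

/-- monomials -/
theorem exists_idx {V : Type} [Fintype V] [DecidableEq V] (m : V →₀ ℕ) (hm : (m.sum fun _ e => e) = d) :
    ∃ I : Fin d → V, ∀ z : V → ℂ, ∏ t, z (I t) = m.prod fun i e => z i ^ e := by
  subst hm
  set L := (Finsupp.toMultiset m).toList with hL
  have hlen : L.length = m.sum fun _ e => e := by
    rw [hL, Multiset.length_toList, Finsupp.card_toMultiset]
    rfl
  refine ⟨fun t => L.get (Fin.cast hlen.symm t), fun z => ?_⟩
  have h1 : ∏ t : Fin (m.sum fun _ e => e), z (L.get (Fin.cast hlen.symm t)) = ∏ t : Fin L.length, z (L.get t) :=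
    Fintype.prod_equiv (finCongr hlen.symm) _ _ fun _ => rfl
  rw [h1]
  have h2 : ∏ t : Fin L.length, z (L.get t) = (L.map z).prod := by
    rw [← List.prod_ofFn]
    congr 1
    conv_rhs => rw [← List.ofFn_get L, List.map_ofFn]
    rfl
  have h3 : (L.map z).prod = ((Finsupp.toMultiset m).map z).prod := by
    conv_rhs => rw [← Multiset.coe_toList (Finsupp.toMultiset m)]
    rw [Multiset.map_coe, Multiset.prod_coe]
  rw [h2, h3, Finset.prod_multiset_map_count, Finsupp.toFinset_toMultiset]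
  simp only [Finsupp.count_toMultiset]
  rfl

/-- homogeneous polynomials are given by tensors -/
theorem exists_tensor {V : Type} [Fintype V] [DecidableEq V] (P : MvPolynomial V ℂ) (hP : P.IsHomogeneous d) :
    ∃ a : (Fin d → V) → ℂ, ∀ z : V → ℂ, MvPolynomial.eval z P = Fm a (fun _ => z) := by
  classical
  have h0 : ∀ m : P.support, ∃ I : Fin d → V, ∀ z : V → ℂ, ∏ t, z (I t) = m.1.prod fun i e => z i ^ e := by
    intro m
    have h1 := hP (MvPolynomial.mem_support_iff.1 m.2)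
    exact exists_idx (d := d) m.1 (by
      rw [← h1]
      simp [Finsupp.weight_apply])
  choose I hI using h0
  refine ⟨∑ m : P.support, P.coeff m.1 • Pi.single (I m) 1, fun z => ?_⟩
  rw [Fm_sum', MvPolynomial.eval_eq, ← Finset.sum_coe_sort P.support]
  refine Finset.sum_congr rfl fun m _ => ?_
  rw [Fm_smul', Fm_unit, hI m]
  rfl

end Pool.Agent.T44.EF
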