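import Pool.Agent.T44.EF.Blk
import Pool.Agent.Y123.ST.Out

/-!
# The criterion with homogeneous relations on the subtorsor
-/

set_option autoImplicit false
set_option linter.unusedSectionVars false

open Matrix

namespace Pool.Agent.T44.EF

open Pool.Agent.Y118.HP Pool.Agent.Y123.ST Pool.Agent.TH119.DR Pool.Agent.TH119.MX Pool.Agent.TH127.PT

variable {n N d : ℕ}

/-- functions given by homogeneous polynomials of degree `d` -/
def HF {n N : ℕ} (d : ℕ) (F : (Fin N → Matrix (Fin n) (Fin n) ℂ) → ℂ) : Prop :=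
  ∃ P : MvPolynomial (VV n N) ℂ, P.IsHomogeneous d ∧ ∀ X, F X = MvPolynomial.eval (cd X) P

theorem HF.const (a : ℂ) : HF (n := n) (N := N) 0 (fun _ => a) :=
  ⟨MvPolynomial.C a, MvPolynomial.isHomogeneous_C _ _, fun X => by rw [MvPolynomial.eval_C]⟩

theorem HF.coord (j : Fin N) (a b : Fin n) : HF (n := n) (N := N) 1 (fun X => X j a b) :=
  ⟨MvPolynomial.X (j, a, b), MvPolynomial.isHomogeneous_X _ _, fun X => by rw [MvPolynomial.eval_X]; rfl⟩

theorem HF.cast {d e : ℕ} (h : d = e) {F : (Fin N → Matrix (Fin n) (Fin n) ℂ) → ℂ} (hF : HF d F) : HF e F := h ▸ hF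

theorem HF.mul {d e : ℕ} {F G : (Fin N → Matrix (Fin n) (Fin n) ℂ) → ℂ} (hF : HF d F) (hG : HF e G) :
    HF (d + e) (fun X => F X * G X) := by
  obtain ⟨P, h1, h2⟩ := hF
  obtain ⟨P', h1', h2'⟩ := hG
  exact ⟨P * P', h1.mul h1', fun X => by rw [map_mul, ← h2, ← h2']⟩

theorem HF.add {d : ℕ} {F G : (Fin N → Matrix (Fin n) (Fin n) ℂ) → ℂ} (hF : HF d F) (hG : HF d G) :
    HF d (fun X => F X + G X) := by
  obtain ⟨P, h1, h2⟩ := hF
  obtain ⟨P', h1', h2'⟩ := hG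
  exact ⟨P + P', h1.add h1', fun X => by rw [map_add, ← h2, ← h2']⟩

theorem HF.sub {d : ℕ} {F G : (Fin N → Matrix (Fin n) (Fin n) ℂ) → ℂ} (hF : HF d F) (hG : HF d G) :
    HF d (fun X => F X - G X) := by
  obtain ⟨P, h1, h2⟩ := hF
  obtain ⟨P', h1', h2'⟩ := hG
  exact ⟨P - P', h1.sub h1', fun X => by rw [map_sub, ← h2, ← h2']⟩

theorem HF.zero {d : ℕ} : HF (n := n) (N := N) d (fun _ => 0) :=
  ⟨0, MvPolynomial.isHomogeneous_zero _ _ _, fun X => (map_zero _).symm⟩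

theorem HF.sum {d : ℕ} {ι : Type*} (s : Finset ι) {F : ι → (Fin N → Matrix (Fin n) (Fin n) ℂ) → ℂ}
    (hF : ∀ i ∈ s, HF d (F i)) : HF d (fun X => ∑ i ∈ s, F i X) := by
  classical
  induction s using Finset.induction_on with
  | empty =>
    simp only [Finset.sum_empty]
    exact HF.zero
  | insert i s hi ih =>
    simp only [Finset.sum_insert hi]
    exact (hF i (Finset.mem_insert_self _ _)).add (ih fun k hk => hF k (Finset.mem_insert_of_mem hk))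

theorem HF.prod {ι : Type*} (s : Finset ι) {d : ι → ℕ} {F : ι → (Fin N → Matrix (Fin n) (Fin n) ℂ) → ℂ}
    (hF : ∀ i ∈ s, HF (d i) (F i)) : HF (∑ i ∈ s, d i) (fun X => ∏ i ∈ s, F i X) := by
  classical
  induction s using Finset.induction_on with
  | empty =>
    simp only [Finset.prod_empty, Finset.sum_empty]
    exact HF.const 1
  | insert i s hi ih =>
    simp only [Finset.prod_insert hi, Finset.sum_insert hi]
    exact (hF i (Finset.mem_insert_self _ _)).mul (ih fun k hk => hF k (Finset.mem_insert_of_mem hk))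

/-- matrices of homogeneous functions -/
def HM {n N : ℕ} (d : ℕ) (M : (Fin N → Matrix (Fin n) (Fin n) ℂ) → Matrix (Fin n) (Fin n) ℂ) : Prop :=
  ∀ a b, HF d (fun X => M X a b)

theorem HM.const (A : Matrix (Fin n) (Fin n) ℂ) : HM (N := N) 0 (fun _ => A) := fun _ _ => HF.const _

theorem HM.coord (j : Fin N) : HM (n := n) 1 (fun X => X j) := fun a b => HF.coord j a b

theorem HM.mul {d e : ℕ} {M M' : (Fin N → Matrix (Fin n) (Fin n) ℂ) → Matrix (Fin n) (Fin n) ℂ} (h : HM d M)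
    (h' : HM e M') : HM (d + e) (fun X => M X * M' X) := by
  intro a b
  simp only [Matrix.mul_apply]
  exact HF.sum _ fun k _ => (h a k).mul (h' k b)

theorem HM.cast {d e : ℕ} (h : d = e) {M : (Fin N → Matrix (Fin n) (Fin n) ℂ) → Matrix (Fin n) (Fin n) ℂ}
    (hM : HM d M) : HM e M := h ▸ hM

theorem HM.pow {d : ℕ} {M : (Fin N → Matrix (Fin n) (Fin n) ℂ) → Matrix (Fin n) (Fin n) ℂ} (h : HM d M) (k : ℕ) :
    HM (k * d) (fun X => M X ^ k) := by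
  induction k with
  | zero =>
    simp only [pow_zero, zero_mul]
    exact HM.const 1
  | succ k ih =>
    simp only [pow_succ]
    exact (ih.mul h).cast (by rw [Nat.succ_mul])

/-- homogeneous relations of degree `d` on `T` hold on the symplectic translates of `c` -/
def HTr (T : Set (Matrix (Fin n × Fin N) (Fin n × Fin N) ℂ)) (c : Fin N → Matrix (Fin n) (Fin n) ℂ) (d : ℕ) : Prop :=
  ∀ P : MvPolynomial (VV n N) ℂ, P.IsHomogeneous d → (∀ X, bd X ∈ T → MvPolynomial.eval (cd X) P = 0) →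
    ∀ h : Fin N → Matrix (Fin n) (Fin n) ℂ, (∀ l, h l ∈ SpS ℂ n) → MvPolynomial.eval (cd (fun l => h l * c l)) P = 0

variable {K : Subfield ℂ} {T : Set (Matrix (Fin n × Fin N) (Fin n × Fin N) ℂ)}
  {Q c : Fin N → Matrix (Fin n) (Fin n) ℂ} {lam : ℂ}

theorem transferF (ht : HTr T c d) {F : (Fin N → Matrix (Fin n) (Fin n) ℂ) → ℂ} (hF : HF d F)
    (hv : ∀ X, bd X ∈ T → F X = 0) {h : Fin N → Matrix (Fin n) (Fin n) ℂ} (hh : ∀ l, h l ∈ SpS ℂ n) :
    F (fun l => h l * c l) = 0 := by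
  obtain ⟨P, h1, h2⟩ := hF
  rw [h2]
  exact ht P h1 (fun X hX => by rw [← h2]; exact hv X hX) h hh

theorem cstabT (hn : Even n) (hT : IsSubtorsor K T) (hTt : ∀ X : Fin N → Matrix (Fin n) (Fin n) ℂ, bd X ∈ T →
    ∃ mu, (X, mu) ∈ Tor Q) (hc : (c, lam) ∈ Tor Q) (hcT : bd c ∈ T) (ht : HTr T c 2) : CStab T := by
  intro g h hg hh hgh w hw
  have hbd1 : bd g * bd h = 1 := by
    rw [bd_mul]
    have : (fun j => g j * h j) = 1 := funext hgh
    rw [this]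
    exact blockDiagonal_one
  have hbd2 : bd h * bd g = 1 := mul_eq_one_comm.1 hbd1
  set x : Fin N → Matrix (Fin n) (Fin n) ℂ := fun j => h j * c j with hx
  have hxT : (x, lam) ∈ Tor Q := by
    refine ⟨hc.1, fun j => ?_⟩
    have h1 := hc.2 j
    have h2 : h j * jm ℂ n * (h j)ᵀ = jm ℂ n := hh j
    simp only at h1 ⊢
    rw [hx]
    simp only
    rw [transpose_mul]
    calc h j * c j * Q j * ((c j)ᵀ * (h j)ᵀ) = h j * (c j * Q j * (c j)ᵀ) * (h j)ᵀ := by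
          simp only [Matrix.mul_assoc]
      _ = lam • jm ℂ n := by rw [h1, Matrix.mul_smul, Matrix.smul_mul, h2]
  have h3 : fl ((bd x)⁻¹ * w * bd x) ∈ RR T := by
    by_contra hcon
    obtain ⟨f, hf1, hf2⟩ := Submodule.exists_le_ker_of_notMem hcon
    have hf3 : ∀ a : (Fin n × Fin N) × (Fin n × Fin N) → ℂ, f a = ∑ b, f (Pi.single b 1) * a b := by
      intro a
      conv_lhs => rw [LinearMap.pi_apply_eq_sum_univ f a]
      refine Finset.sum_congr rfl fun b _ => ?_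
      have h : (fun j => if b = j then (1 : ℂ) else 0) = Pi.single b 1 := by
        funext j
        simp [Pi.single_apply, eq_comm]
      rw [h, smul_eq_mul, mul_comm]
    apply hf1
    rw [hf3]
    set u : (Fin n × Fin N) × (Fin n × Fin N) → ℂ := fun b => f (Pi.single b 1) with hu
    have h5 := (RP_deg (K := ⊤) hn (Q := Q) (fun j a b => Subfield.mem_top _) (A := w) (fun i j => Subfield.mem_top _)
      (u := u) (fun b => Subfield.mem_top _)).2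
    have h6 := ht (RP Q w u) h5 (fun X hX => by
      obtain ⟨mu, hX'⟩ := hTt X hX
      rw [RP_eval hn w u hX']
      have h7 := hf2 (conj_mem hT hX hw)
      rw [LinearMap.mem_ker, hf3] at h7
      rw [h7, mul_zero]) h hh
    rw [RP_eval hn w u hxT] at h6
    exact (mul_eq_zero.1 h6).resolve_left hc.1
  have h7 := conj_mem' hT hcT h3
  have hxe : bd x = bd h * bd c := (bd_mul h c).symm
  have hxi : (bd x)⁻¹ = (bd c)⁻¹ * bd g := by
    rw [hxe, Matrix.mul_inv_rev]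
    congr 1
    exact inv_eq_left_inv hbd1
  rw [hxi, hxe] at h7
  have h8 : bd c * ((bd c)⁻¹ * bd g * w * (bd h * bd c)) * (bd c)⁻¹ = bd g * w * bd h := by
    have h9 := mul_inv' hT hcT
    calc bd c * ((bd c)⁻¹ * bd g * w * (bd h * bd c)) * (bd c)⁻¹ =
        (bd c * (bd c)⁻¹) * (bd g * w * bd h) * (bd c * (bd c)⁻¹) := by simp only [Matrix.mul_assoc]
      _ = bd g * w * bd h := by rw [h9, Matrix.one_mul, Matrix.mul_one]
  rw [h8] at h7
  exact h7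

theorem HGf_X (j : Fin N) (en : ℕ × ℕ → Fin n × Fin n) (Y Z : Fin N → Matrix (Fin n) (Fin n) ℂ) (p : ℕ × ℕ) :
    HF p.1 (fun X => Gf Q j en X Y Z p) := by
  have hX : HM 1 (fun X => Mf Q j X Z) :=
    (((HM.coord j).mul (HM.const (Q j))).mul (HM.const (Z j)ᵀ)).mul (HM.const (jm ℂ n)⁻¹)
  have hY : HM 0 (fun _ : Fin N → Matrix (Fin n) (Fin n) ℂ => Mf Q j Y Z ^ p.2) := HM.const _
  exact (((hX.pow p.1).mul hY).cast (by omega) (en p).1 (en p).2).sub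
    ((hY.mul (hX.pow p.1)).cast (by omega) (en p).1 (en p).2)

theorem HGf_Y (j : Fin N) (en : ℕ × ℕ → Fin n × Fin n) (X Z : Fin N → Matrix (Fin n) (Fin n) ℂ) (p : ℕ × ℕ) :
    HF p.2 (fun Y => Gf Q j en X Y Z p) := by
  have hY : HM 1 (fun Y => Mf Q j Y Z) :=
    (((HM.coord j).mul (HM.const (Q j))).mul (HM.const (Z j)ᵀ)).mul (HM.const (jm ℂ n)⁻¹)
  have hX : HM 0 (fun _ : Fin N → Matrix (Fin n) (Fin n) ℂ => Mf Q j X Z ^ p.1) := HM.const _
  exact ((hX.mul (hY.pow p.2)).cast (by omega) (en p).1 (en p).2).sub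
    (((hY.pow p.2).mul hX).cast (by omega) (en p).1 (en p).2)

/-- the degrees -/
def dX (J : ℕ) : ℕ := ∑ p ∈ Finset.Icc 1 J ×ˢ Finset.Icc 1 J, p.1

def dY (J : ℕ) : ℕ := ∑ p ∈ Finset.Icc 1 J ×ˢ Finset.Icc 1 J, p.2

theorem HPf_X (j : Fin N) (J : ℕ) (en : ℕ × ℕ → Fin n × Fin n) (Y Z : Fin N → Matrix (Fin n) (Fin n) ℂ) :
    HF (dX J) (fun X => Pf Q j J en X Y Z) := HF.prod _ fun p _ => HGf_X j en Y Z p

theorem HPf_Y (j : Fin N) (J : ℕ) (en : ℕ × ℕ → Fin n × Fin n) (X Z : Fin N → Matrix (Fin n) (Fin n) ℂ) :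
    HF (dY J) (fun Y => Pf Q j J en X Y Z) := HF.prod _ fun p _ => HGf_Y j en X Z p

theorem no_algT (n : ℕ) (hn : Even n) (hn0 : 0 < n) : ∃ J : ℕ, ∀ (N : ℕ) (K : Subfield ℂ)
    (T : Set (Matrix (Fin n × Fin N) (Fin n × Fin N) ℂ)) (Q c : Fin N → Matrix (Fin n) (Fin n) ℂ) (lam : ℂ) (j : Fin N),
    IsSubtorsor K T → (∀ y ∈ T, ∃ X mu, y = bd X ∧ (X, mu) ∈ Tor Q) → (c, lam) ∈ Tor Q → bd c ∈ T → HTr T c (dX J) →
    HTr T c (dY J) →
    (∀ X : Fin N → Matrix (Fin n) (Fin n) ℂ, bd X ∈ T →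
      ∃ (ν : ℂ) (a : Matrix (Fin n) (Fin n) ℂ), (∀ i k, IsAlgebraic ℚ (a i k)) ∧ X j = ν • a) → False := by
  classical
  obtain ⟨J, hJ⟩ := Jor.jordan n
  refine ⟨J, ?_⟩
  intro N K T Q c lam j hT hTb hc hcT hrX hrY halg
  have htor : ∀ X : Fin N → Matrix (Fin n) (Fin n) ℂ, bd X ∈ T → ∃ mu, (X, mu) ∈ Tor Q := by
    intro X hX
    obtain ⟨X', mu, h1, h2⟩ := hTb _ hX
    have h3 : X = X' := bd_inj h1
    subst h3
    exact ⟨mu, h2⟩
  have hdetX : ∀ X : Fin N → Matrix (Fin n) (Fin n) ℂ, bd X ∈ T → IsUnit (X j).det := by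
    intro X hX
    obtain ⟨mu, h1⟩ := htor X hX
    exact (tor_det hn h1.1 (h1.2 j)).1
  -- finiteness
  obtain ⟨S, hS, hSX⟩ := finite_class hT j (by
    intro y hy
    obtain ⟨X, mu, rfl, hX⟩ := hTb y hy
    exact ⟨X, rfl, mat_ne_zero hn0 (hdetX X hy), halg X hy⟩)
  have hfin : (Gr T j).Finite := by
    have h1 : (⋃ A ∈ S, ⋃ A' ∈ {A' | A' ∈ S ∧ IsUnit A'.det},
        {g : Matrix (Fin n) (Fin n) ℂ | g ∈ SpS ℂ n ∧ ∃ ρ : ℂ, g * A' = ρ • A}).Finite := by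
      refine hS.biUnion fun A _ => Set.Finite.biUnion (hS.subset fun A' h => h.1) fun A' hA' => ?_
      exact sp_pair_finite hn hn0 A A' hA'.2
    refine h1.subset ?_
    rintro g ⟨hg, X, Y, hX, hY, ν, hν⟩
    obtain ⟨A, hA, μ, hμ⟩ := hSX X hX
    obtain ⟨A', hA', μ', hμ'⟩ := hSX Y hY
    have hYd := hdetX Y hY
    rw [hμ', det_smul] at hYd
    have hA'd : IsUnit A'.det := isUnit_of_mul_isUnit_right hYd
    have hμ0 : μ' ≠ 0 := by
      rintro rfl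
      rw [Fintype.card_fin, zero_pow hn0.ne', zero_mul] at hYd
      exact not_isUnit_zero hYd
    simp only [Set.mem_iUnion]
    refine ⟨A, hA, A', ⟨hA', hA'd⟩, hg, ν * μ / μ', ?_⟩
    rw [hμ, hμ', Matrix.mul_smul, smul_smul] at hν
    have h2 : g * A' = μ'⁻¹ • (μ' • (g * A')) := by rw [smul_smul, inv_mul_cancel₀ hμ0, one_smul]
    rw [h2, hν, smul_smul]
    congr 1
    field_simp
  -- the group
  have hgroup := hJ (Gr T j) hfin ⟨SpS_one, c, c, hcT, hcT, 1, by rw [Matrix.one_mul, one_smul]⟩ (by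
    rintro g ⟨hg, X, Y, hX, hY, ν, hν⟩ h ⟨hh, Z, W, hZ, hW, ν', hν'⟩
    obtain ⟨μ, hYt⟩ := htor Y hY
    refine ⟨SpS_mul hg hh, _, W, bd_tor hn hT hYt hX hY hZ, hW, ν' * ν, ?_⟩
    have hYY : Y j * (Y j)⁻¹ = 1 := mul_nonsing_inv _ (hdetX Y hY)
    rw [Matrix.mul_assoc, hν', Matrix.mul_smul]
    calc ν' • (g * Z j) = ν' • (g * (Y j * (Y j)⁻¹) * Z j) := by rw [hYY, Matrix.mul_one]
      _ = ν' • ((g * Y j) * (Y j)⁻¹ * Z j) := by simp only [Matrix.mul_assoc]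
      _ = (ν' * ν) • (X j * (Y j)⁻¹ * Z j) := by rw [hν, Matrix.smul_mul, Matrix.smul_mul, smul_smul]) (by
    rintro g ⟨hg, -⟩
    exact sp_det hn hg) (by
    rintro g ⟨hg, X, Y, hX, hY, ν, hν⟩
    have hgd := sp_det hn hg
    have hν0 : ν ≠ 0 := by
      rintro rfl
      rw [zero_smul] at hν
      have h2 : IsUnit (g * Y j).det := by rw [det_mul]; exact hgd.mul (hdetX Y hY)
      exact mat_ne_zero hn0 h2 hν
    refine ⟨sp_inv hn hg, Y, X, hY, hX, ν⁻¹, ?_⟩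
    have h1 : X j = ν⁻¹ • (g * Y j) := by rw [hν, smul_smul, inv_mul_cancel₀ hν0, one_smul]
    rw [h1, Matrix.mul_smul, ← Matrix.mul_assoc, nonsing_inv_mul _ hgd, Matrix.one_mul])
  -- special matrices
  obtain ⟨u, v, huv⟩ : ∃ u v : Fin n → ℂ, om u v ≠ 0 := by
    by_contra hcon
    push Not at hcon
    have h1 := om_nondeg hn (u := Pi.single ⟨0, hn0⟩ 1) (fun x => hcon _ x)
    have h2 := congrFun h1 ⟨0, hn0⟩
    rw [Pi.single_eq_same] at h2
    exact one_ne_zero h2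
  have hen : ∀ p : ℕ × ℕ, ∃ e : Fin n × Fin n, 1 ≤ p.1 → 1 ≤ p.2 →
      (TV u 1 ^ p.1 * TV v 1 ^ p.2 - TV v 1 ^ p.2 * TV u 1 ^ p.1) e.1 e.2 ≠ 0 := by
    intro p
    by_cases hp : 1 ≤ p.1 ∧ 1 ≤ p.2
    · have h1 := TV_not_comm huv hp.1 hp.2
      by_contra hcon
      push Not at hcon
      apply h1
      rw [← sub_eq_zero]
      ext a b
      obtain ⟨-, -, h2⟩ := hcon (a, b)
      exact h2
    · refine ⟨(⟨0, hn0⟩, ⟨0, hn0⟩), fun h1 h2 => absurd ⟨h1, h2⟩ hp⟩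
  choose en hen using hen
  -- the relation on `T`
  have step0 : ∀ X Y Z : Fin N → Matrix (Fin n) (Fin n) ℂ, bd X ∈ T → bd Y ∈ T → bd Z ∈ T → Pf Q j J en X Y Z = 0 := by
    intro X Y Z hX hY hZ
    obtain ⟨μ1, h1⟩ := htor X hX
    obtain ⟨μ2, h2⟩ := htor Y hY
    obtain ⟨μ3, h3⟩ := htor Z hZ
    obtain ⟨g, ν, s, hg, hgZ, hgs⟩ := quot_sp hn h1 h3 j
    obtain ⟨h, ν', s', hh, hhZ, hhs⟩ := quot_sp hn h2 h3 j
    obtain ⟨k, l, hk, hl, hkl⟩ := hgroup g ⟨hg, X, Z, hX, hZ, ν, hgZ⟩ h ⟨hh, Y, Z, hY, hZ, ν', hhZ⟩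
    unfold Pf
    refine Finset.prod_eq_zero (i := (k, l)) ?_ ?_
    · rw [Finset.mem_product, Finset.mem_Icc, Finset.mem_Icc]
      exact ⟨hk, hl⟩
    · unfold Gf Mf
      simp only
      rw [hgs, hhs, smul_pow, smul_pow, smul_mul_smul_comm, smul_mul_smul_comm, hkl, mul_comm (s ^ k), sub_self]
      rfl
  have step1 : ∀ Y : Fin N → Matrix (Fin n) (Fin n) ℂ, bd Y ∈ T → ∀ h : Fin N → Matrix (Fin n) (Fin n) ℂ,
      (∀ l, h l ∈ SpS ℂ n) → Pf Q j J en (fun l => h l * c l) Y c = 0 :=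
    fun Y hY h hh => transferF hrX (HPf_X j J en Y c) (fun X hX => step0 X Y c hX hY hcT) hh
  have step2 : ∀ h h' : Fin N → Matrix (Fin n) (Fin n) ℂ, (∀ l, h l ∈ SpS ℂ n) → (∀ l, h' l ∈ SpS ℂ n) →
      Pf Q j J en (fun l => h l * c l) (fun l => h' l * c l) c = 0 :=
    fun h h' hh hh' => transferF hrY (HPf_Y j J en (fun l => h l * c l) c) (fun Y hY => step1 Y hY h hh) hh'
  have hMf : ∀ g : Matrix (Fin n) (Fin n) ℂ, Mf Q j (fun i => sg j g i * c i) c = lam • g := by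
    intro g
    unfold Mf
    simp only [sg_same]
    have h1 := hc.2 j
    simp only at h1
    calc g * c j * Q j * (c j)ᵀ * (jm ℂ n)⁻¹ = g * (c j * Q j * (c j)ᵀ) * (jm ℂ n)⁻¹ := by
          simp only [Matrix.mul_assoc]
      _ = lam • g := by
        rw [h1, Matrix.mul_smul, Matrix.smul_mul, Matrix.mul_assoc, mul_nonsing_inv _ (jm_det hn).isUnit, Matrix.mul_one]
  have h0 := step2 (sg j (TV u 1)) (sg j (TV v 1)) (sg_mem j u 1) (sg_mem j v 1)
  unfold Pf at h0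
  rw [Finset.prod_eq_zero_iff] at h0
  obtain ⟨p, hp, hp0⟩ := h0
  rw [Finset.mem_product, Finset.mem_Icc, Finset.mem_Icc] at hp
  unfold Gf at hp0
  rw [hMf, hMf, smul_pow, smul_pow, smul_mul_smul_comm, smul_mul_smul_comm, mul_comm (lam ^ p.2), ← smul_sub,
    Matrix.smul_apply, smul_eq_mul] at hp0
  rcases mul_eq_zero.1 hp0 with h1 | h1
  · exact mul_ne_zero (pow_ne_zero _ hc.1) (pow_ne_zero _ hc.1) h1
  · exact hen p hp.1.1 hp.2.1 h1

/-- the part of `T` in the torsor -/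
def TT (Q : Fin N → Matrix (Fin n) (Fin n) ℂ) (T : Set (Matrix (Fin n × Fin N) (Fin n × Fin N) ℂ)) :
    Set (Matrix (Fin n × Fin N) (Fin n × Fin N) ℂ) :=
  {x : Matrix (Fin n × Fin N) (Fin n × Fin N) ℂ | ∃ X mu, x = bd X ∧ (X, mu) ∈ Tor Q} ∩ T

/-- **The criterion.** -/
theorem critT (n : ℕ) (hn : Even n) (hn0 : 0 < n) : ∃ J : ℕ, ∀ (N : ℕ) (K : Subfield ℂ)
    (T : Set (Matrix (Fin n × Fin N) (Fin n × Fin N) ℂ)) (Q c : Fin N → Matrix (Fin n) (Fin n) ℂ) (lam : ℂ), 0 < N →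
    (∀ x ∈ K, IsAlgebraic ℚ x) → IsSubtorsor K T → (∀ j a b, Q j a b ∈ K) → (c, lam) ∈ Tor Q → bd c ∈ T →
    Transcendental ℚ lam → HTr (TT Q T) c 2 → HTr (TT Q T) c (dX J) → HTr (TT Q T) c (dY J) →
    ∀ x ∈ Tor Q, bd x.1 ∈ T := by
  obtain ⟨J, hJ⟩ := no_algT n hn hn0
  refine ⟨J, ?_⟩
  intro N K T Q c lam hN hK hT hQ hc hcT hlam hr2 hrX hrY
  set T' := TT Q T with hT'def
  have hT' : IsSubtorsor K T' := inter_sub (tor_sub hn hn0 hN hQ hc) hT
  have hcT' : bd c ∈ T' := ⟨⟨c, lam, rfl, hc⟩, hcT⟩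
  have hTt : ∀ X : Fin N → Matrix (Fin n) (Fin n) ℂ, bd X ∈ T' → ∃ mu, (X, mu) ∈ Tor Q := by
    intro X hX
    obtain ⟨X', mu, h1, h2⟩ := hX.1
    have h3 : X = X' := bd_inj h1
    subst h3
    exact ⟨mu, h2⟩
  have hC : CStab T' := cstabT hn hT' hTt hc hcT' hr2
  have hE : ∀ j u, EE u ∈ LJ T' j := by
    intro j
    by_contra hcon
    have hno : ∀ v : Fin n → ℂ, v ≠ 0 → EE v ∉ LJ T' j := by
      intro v hv0 hv
      exact hcon (EE_all hn hC j hv0 hv)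
    refine hJ N K T' Q c lam j hT' (fun y hy => hy.1) hc hcT' hrX hrY ?_
    intro X hX
    by_contra hnon
    obtain ⟨mu, hXt⟩ := hTt X hX
    obtain ⟨D, hD⟩ := exists_ld hn hK hXt j hnon
    obtain ⟨v, hv⟩ := exists_vec hn (ld_rel hn hQ hXt D j) (hD _)
    have hv0 : v ≠ 0 := by
      rintro rfl
      apply hv
      rw [zero_dotProduct]
    exact hno v hv0 (EE_mem_of hC (ld_mem hn hT' hXt hX D) j hv)
  intro x hx
  exact (full_of_EE hn hK hT' hQ hc hcT' hlam hE x hx).2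

end Pool.Agent.T44.EF
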