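import Pool.Agent.T44.EF.TrH
import Pool.Agent.T44.EF.CritT
import Pool.Agent.H16EF.Codim

/-!
# The criterion for points near a point of torus type
-/

set_option autoImplicit false
set_option linter.unusedSectionVars false

open Matrix

namespace Pool.Agent.T44.EF

open Pool.Agent.Y118.HP Pool.Agent.Y123.ST Pool.Agent.TH119.DR Pool.Agent.TH119.MX Pool.Agent.TH127.PT

variable {n N : ℕ}

theorem hcod (hn : Even n) (hn4 : 4 ≤ n) {s : ℕ} (hs : s ≤ n / 2) (H : Submodule ℂ (Matrix (Fin n) (Fin n) ℂ))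
    (h1 : ∀ X ∈ H, ∀ Y ∈ H, X * Y - Y * X ∈ H)
    (h2 : ∀ v : Fin (s + 1) → (Fin n → ℂ), ¬ LinearIndependent ℂ (fun i => H.mkQ (EE (v i)))) (v : Fin n → ℂ) :
    EE v ∈ H := by
  refine Pool.Agent.H16EF.main n hn hn4 H h1 (fun v hv => ?_) v
  exact h2 (fun i => v (Fin.castLE (by omega) i)) (hv.comp (Fin.castLE (by omega)) (Fin.castLE_injective _))

/-- all homogeneous relations of degree `d` -/
theorem htr_of (hn : Even n) (hn4 : 4 ≤ n) {s : ℕ} (hs : s ≤ n / 2) {d : ℕ}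
    {K K' : Subfield ℂ} (hKK' : K ≤ K') (hK' : FiniteDimensional ℚ K') {D δ : ℕ} (hKD : Module.finrank ℚ K' ≤ D)
    {U V0 x : Matrix (Fin n) (Fin n) ℂ} (hU : ∀ i j, U i j ∈ K') (hV : ∀ i j, V0 i j ∈ K') (hUd : IsUnit U.det)
    (hVd : IsUnit V0.det) {lam : ℂ} (hlam : lam ≠ 0) {θ : Fin s → ℂ} (hθ : ∀ j, θ j ≠ 0) {e : Fin n → Fin s → ℤ} {E1 : ℕ}
    (he : ∀ k j, |e k j| ≤ E1) (hx : x = lam • (U * diagonal (fun k => ∏ j, θ j ^ e k j) * V0)) {μ : ℂ} (hμ : μ ≠ 0)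
    (hxJ : x * jm ℂ n * xᵀ = μ • jm ℂ n) {y W c : Fin N → Matrix (Fin n) (Fin n) ℂ} (hy : ∀ l, y l ∈ SpS ℂ n)
    (hG : Gen y δ D) (hW : ∀ l i j, W l i j ∈ K) (hWd : ∀ l, IsUnit (W l).det) (hc : ∀ l, c l = x * y l * W l)
    {T : Set (Matrix (Fin n × Fin N) (Fin n × Fin N) ℂ)} {Q : Fin N → Matrix (Fin n) (Fin n) ℂ}
    (hT : IsSubtorsor K T) (hTb : ∀ y ∈ T, ∃ X mu, y = bd X ∧ (X, mu) ∈ Tor Q) (hcT : bd c ∈ T)
    (hδ : dexp s (Fintype.card (Fin d → VV n N)) (d * E1) d ≤ δ) : HTr T c d := by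
  have htor : ∀ X : Fin N → Matrix (Fin n) (Fin n) ℂ, bd X ∈ T → ∃ mu, (X, mu) ∈ Tor Q := by
    intro X hX
    obtain ⟨X', mu, h1, h2⟩ := hTb _ hX
    have h3 : X = X' := bd_inj h1
    subst h3
    exact ⟨mu, h2⟩
  intro P hP hv h hh
  obtain ⟨a, ha⟩ := exists_tensor P hP
  have h1 := transferH (d := d) hn (hcod hn hn4 hs) hKK' hK' hKD hU hV hUd hVd hlam hθ he hx hμ hxJ hy hG hW hWd hc hT
    (fun X hX j => by
      obtain ⟨mu, h1⟩ := htor X hX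
      exact (tor_det hn h1.1 (h1.2 j)).1)
    (fun X Y Z hX hY hZ => by
      obtain ⟨mu, h1⟩ := htor Y hY
      exact bd_tor hn hT h1 hX hY hZ) hcT hδ a (fun X hX => by
        show Fm a _ = 0
        rw [← ha]
        exact hv X hX) h hh
  rw [ha]
  exact h1

theorem crit_torus (hn : Even n) (hn4 : 4 ≤ n) {s : ℕ} (hs : s ≤ n / 2) (E1 : ℕ) (hN : 0 < N) : ∃ δ : ℕ,
    ∀ (K K' : Subfield ℂ), K ≤ K' → FiniteDimensional ℚ K' → ∀ D : ℕ, Module.finrank ℚ K' ≤ D →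
    ∀ (U V0 x : Matrix (Fin n) (Fin n) ℂ), (∀ i j, U i j ∈ K') → (∀ i j, V0 i j ∈ K') → IsUnit U.det → IsUnit V0.det →
    ∀ (lam : ℂ), lam ≠ 0 → ∀ (θ : Fin s → ℂ), (∀ j, θ j ≠ 0) → ∀ (e : Fin n → Fin s → ℤ), (∀ k j, |e k j| ≤ E1) →
    x = lam • (U * diagonal (fun k => ∏ j, θ j ^ e k j) * V0) → ∀ (μ : ℂ), μ ≠ 0 → x * jm ℂ n * xᵀ = μ • jm ℂ n →
    ∀ (y W c : Fin N → Matrix (Fin n) (Fin n) ℂ), (∀ l, y l ∈ SpS ℂ n) → Gen y δ D → (∀ l i j, W l i j ∈ K) →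
    (∀ l, IsUnit (W l).det) → (∀ l, c l = x * y l * W l) →
    ∀ (T : Set (Matrix (Fin n × Fin N) (Fin n × Fin N) ℂ)) (Q : Fin N → Matrix (Fin n) (Fin n) ℂ) (nu : ℂ),
    IsSubtorsor K T → (∀ j a b, Q j a b ∈ K) → (c, nu) ∈ Tor Q → bd c ∈ T → Transcendental ℚ nu →
    ∀ x ∈ Tor Q, bd x.1 ∈ T := by
  obtain ⟨J, hJ⟩ := critT n hn (by omega)
  refine ⟨dexp s (Fintype.card (Fin 2 → VV n N)) (2 * E1) 2 + dexp s (Fintype.card (Fin (dX J) → VV n N)) (dX J * E1) (dX J) +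
    dexp s (Fintype.card (Fin (dY J) → VV n N)) (dY J * E1) (dY J), ?_⟩
  intro K K' hKK' hK' D hKD U V0 x hU hV hUd hVd lam hlam θ hθ e he hx μ hμ hxJ y W c hy hG hW hWd hc T Q nu hT hQ hcQ hcT hnu
  have hKalg : ∀ z ∈ K, IsAlgebraic ℚ z := by
    intro z hz
    have h6 : IsAlgebraic ℚ (⟨z, hKK' hz⟩ : K') := Algebra.IsAlgebraic.isAlgebraic _
    exact h6.algebraMap (A := ℂ)
  have hT' : IsSubtorsor K (TT Q T) := inter_sub (tor_sub hn (by omega) hN hQ hcQ) hT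
  have hcT' : bd c ∈ TT Q T := ⟨⟨c, nu, rfl, hcQ⟩, hcT⟩
  have h : ∀ d : ℕ, dexp s (Fintype.card (Fin d → VV n N)) (d * E1) d ≤ dexp s (Fintype.card (Fin 2 → VV n N)) (2 * E1) 2 +
      dexp s (Fintype.card (Fin (dX J) → VV n N)) (dX J * E1) (dX J) +
      dexp s (Fintype.card (Fin (dY J) → VV n N)) (dY J * E1) (dY J) → HTr (TT Q T) c d := fun d hd =>
    htr_of hn hn4 hs hKK' hK' hKD hU hV hUd hVd hlam hθ he hx hμ hxJ hy hG hW hWd hc hT' (fun y hy => hy.1) hcT' hd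
  exact hJ N K T Q c nu hN hKalg hT hQ hcQ hcT hnu (h 2 (by omega)) (h _ (by omega)) (h _ (by omega))

end Pool.Agent.T44.EF
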