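import Pool.Agent.T44.EF.CritX
import Pool.Agent.Y124.TH.Fin

/-!
# Hyperelliptic families near a fibre of torus type
-/

set_option autoImplicit false
set_option linter.unusedSectionVars false

open Matrix Polynomial Filter Topology

namespace Pool.Agent.T44.EF

open Pool.Agent.Y118.HP Pool.Agent.Y118.HG Pool.Agent.Y113 Pool.Agent.Y37.GF Pool.Agent.Y124.TH

variable {n : ℕ}

/-- **The base** -/
theorem base2 (hn : Even n) {a : Fin n → ℝ} (ha : StrictMono a) {m : Fin (n + 1)} {f : ℚ[X]}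
    (h0 : InGap a m 0) (hf : f.map (algebraMap ℚ ℝ) = ∏ i, (X - C (a i))) (hf0 : f.coeff 0 ≠ 0) (Δ : ZDat n a m f)
    {G0 : ℕ} (hsep : ∀ {r : ℕ} (g : Fin r → ℕ), SepN G0 g → Sep a (fun l => (g l : ℝ))) (k δ D : ℕ) :
    ∃ E : ℕ, ∀ H t : ℕ, (H + 2) ^ E ≤ t → (H < t) ∧ ∀ g : Fin k → ℕ, SepN G0 g → (∀ l, g l ≤ H) →
      (∀ l, InGap a m (1 / ((t : ℝ) - g l)) ∧
        CM a m (1 / ((t : ℝ) - g l)) = AC a m Δ.V * Zc Δ.Z (1 / ((t : ℝ) - g l)) *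
          Δ.U.map (aeval (((1 / ((t : ℝ) - g l) : ℝ)) : ℂ)) ∧
        Zc Δ.Z (1 / ((t : ℝ) - g l)) ∈ SpS ℂ n) ∧
      Gen (fun l => Zc Δ.Z (1 / ((t : ℝ) - g l))) δ D := by
  classical
  have ha0 : ∀ i, a i ≠ 0 := fun i => ne_zero_of_gap h0 i
  obtain ⟨κ, _, k0, b, w, hb0, hbD, hw, hb⟩ := exists_basis1 hn (D * δ)
  obtain ⟨E, hE⟩ := li_val hn ha ha0 h0 hf hf0 Δ hsep (D * δ) k0 b w hb0 hbD hw hb k
  obtain ⟨ρ, hρ, hZ'⟩ := SDc_SR' (fun p : Fin n × Fin n => Δ.Z p.1 p.2) fun p => Δ.sdZ p.1 p.2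
  have hZ : SRm ρ Δ.Z := fun i j => hZ' (i, j)
  obtain ⟨ε, hε, hval⟩ := Metric.eventually_nhds_iff.1 (CM_val hn ha h0 Δ)
  obtain ⟨c₂, hc₂⟩ := Pool.Agent.Y678.HG.exists_two_pow (1 / ρ + 1 / ε + 1)
  refine ⟨E + (c₂ + 1), fun H t ht => ?_⟩
  have h1 : (H + 2) ^ E ≤ t := (Nat.pow_le_pow_right (by omega) (by omega)).trans ht
  obtain ⟨hHt, h2⟩ := hE H t h1
  have hHt' : H < t := by exact_mod_cast hHt
  refine ⟨hHt', fun g hg hgH => ?_⟩
  have hli := h2 g hg hgH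
  have hsm : ∀ l, |1 / ((t : ℝ) - g l)| ≤ ρ ∧ |1 / ((t : ℝ) - g l)| < ε := by
    intro l
    have h5 := Pool.Agent.Y113.GG.sub_large (c := c₂) (by omega : c₂ + 1 ≤ E + (c₂ + 1)) ht (hgH l)
    have h6 : (2 : ℝ) ^ c₂ ≤ ((t - g l : ℕ) : ℝ) := by exact_mod_cast h5
    have hgl := hgH l
    rw [Nat.cast_sub (by omega)] at h6
    have h7 : 1 / ρ + 1 / ε + 1 ≤ (t : ℝ) - g l := hc₂.trans h6
    have h8 : 0 < 1 / ρ := by positivity
    have h9 : 0 < 1 / ε := by positivity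
    have h10 : 0 < (t : ℝ) - g l := by linarith
    rw [abs_of_pos (by positivity)]
    constructor
    · rw [div_le_iff₀ h10]
      have : ρ * (1 / ρ) ≤ ρ * ((t : ℝ) - g l) := mul_le_mul_of_nonneg_left (by linarith) hρ.le
      rwa [mul_one_div_cancel hρ.ne'] at this
    · rw [div_lt_iff₀ h10]
      have : ε * (1 / ε) < ε * ((t : ℝ) - g l) := mul_lt_mul_of_pos_left (by linarith) hε
      rwa [mul_one_div_cancel hε.ne'] at this
  have hspc : ∀ l, Zc Δ.Z (1 / ((t : ℝ) - g l)) ∈ SpS ℂ n := fun l =>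
    SpS_map (algebraMap ℝ ℂ) (Ez_mem Δ.zJ hρ hZ (hsm l).1)
  have hlic : LinearIndependent ℚ (fun e : Fin k → κ => ∏ i, mnm (Zc Δ.Z (1 / ((t : ℝ) - g i))) (b (e i))) := li_cx b _ hli
  refine ⟨fun l => ?_, gen_of_li hn hw hspc hlic le_rfl⟩
  have h3 := hval (y := 1 / ((t : ℝ) - g l)) (by
    rw [Real.dist_eq, sub_zero]
    exact (hsm l).2)
  exact ⟨h3.1, h3.2, hspc l⟩

/-- a number field which contains given algebraic numbers -/
theorem exists_nf (S : Set ℂ) (hS : S.Finite) (h : ∀ x ∈ S, IsAlgebraic ℚ x) :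
    ∃ K0 : IntermediateField ℚ ℂ, FiniteDimensional ℚ K0 ∧ S ⊆ K0 := by
  have : Finite S := hS
  exact ⟨IntermediateField.adjoin ℚ S, IntermediateField.finiteDimensional_adjoin fun x hx => (h x hx).isIntegral,
    IntermediateField.subset_adjoin ℚ S⟩

/-- the compositum -/
theorem exists_sup (K : Subfield ℂ) (hK : FiniteDimensional ℚ K) (K0 : IntermediateField ℚ ℂ) (hK0 : FiniteDimensional ℚ K0) :
    ∃ K' : Subfield ℂ, K ≤ K' ∧ (∀ x ∈ K0, x ∈ K') ∧ FiniteDimensional ℚ K' ∧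
      Module.finrank ℚ K' ≤ Module.finrank ℚ K * Module.finrank ℚ K0 := by
  set K1 : IntermediateField ℚ ℂ := K.toIntermediateField (fun q => SubfieldClass.ratCast_mem K q) with hK1
  have h1 : FiniteDimensional ℚ K1 := hK
  refine ⟨(K1 ⊔ K0).toSubfield, fun x hx => (le_sup_left : K1 ≤ K1 ⊔ K0) hx, fun x hx => (le_sup_right : K0 ≤ K1 ⊔ K0) hx,
    inferInstanceAs (FiniteDimensional ℚ (K1 ⊔ K0 : IntermediateField ℚ ℂ)), ?_⟩
  exact IntermediateField.finrank_sup_le K1 K0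

theorem main_hyp (hn : Even n) (hn4 : 4 ≤ n) (a : Fin n → ℝ) (f : ℚ[X]) (hf : f.map (algebraMap ℚ ℝ) = ∏ i, (X - C (a i)))
    (m : Fin (n + 1)) (h0 : StrictMono (er a m 0)) {s : ℕ} (hs : s ≤ n / 2)
    (hcen : ∃ (U V : Matrix (Fin n) (Fin n) ℂ) (θ : Fin s → ℂ) (e : Fin n → Fin s → ℤ) (lam : ℂ),
      (∀ i j, IsAlgebraic ℚ (U i j)) ∧ (∀ i j, IsAlgebraic ℚ (V i j)) ∧ IsUnit U.det ∧ IsUnit V.det ∧
      lam ≠ 0 ∧ (∀ j, θ j ≠ 0) ∧
      Matrix.of (cper (er a m 0)) = lam • (U * diagonal (fun k => ∏ j, θ j ^ e k j) * V)) :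
    ∃ G0 : ℕ, ∀ k D : ℕ, 0 < k → ∃ E : ℕ, ∀ H t : ℕ, (H + 2) ^ E ≤ t → H < t ∧ ∀ g : Fin k → ℕ, SepN G0 g → (∀ l, g l ≤ H) →
        (∀ l, StrictMono (er a m (1 / ((t : ℝ) - g l)))) ∧
        ∀ K : Subfield ℂ, FiniteDimensional ℚ K → Module.finrank ℚ K ≤ D →
          Pool.Agent.Y123.ST.Om K (blockDiagonal fun l => Matrix.of (cper (er a m (1 / ((t : ℝ) - g l)))))
            (Pool.Agent.Y123.ST.TB fun l => (qm n (f * (X - C (1 / ((t : ℚ) - g l))))).map (algebraMap ℚ ℂ)) := by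
  classical
  have ha : StrictMono a := (inGap_of_er h0).1
  have hg0 : InGap a m 0 := (inGap_of_er h0).2
  have hf0 : f.coeff 0 ≠ 0 := coeff_ne_of_gap hg0 hf
  obtain ⟨U, V, θ, e, lam, hU, hV, hUd, hVd, hlam, hθ, hcenE⟩ := hcen
  obtain ⟨G0, hG0, hsep⟩ := exists_G0 a
  have Δ : ZDat n a m f := Classical.choice (exists_ZDat hn ha hg0 hf hf0)
  refine ⟨G0, fun k D hk => ?_⟩
  set E1 : ℕ := Finset.univ.sup fun kj : Fin n × Fin s => (e kj.1 kj.2).natAbs with hE1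
  have he : ∀ k j, |e k j| ≤ (E1 : ℤ) := by
    intro k j
    have h1 : (e k j).natAbs ≤ E1 := Finset.le_sup (f := fun kj : Fin n × Fin s => (e kj.1 kj.2).natAbs) (Finset.mem_univ (k, j))
    rw [Int.abs_eq_natAbs]
    exact_mod_cast h1
  obtain ⟨δ, hδ⟩ := crit_torus hn hn4 hs E1 hk
  obtain ⟨K0, hK0, hSK0⟩ := exists_nf (Set.range (fun ij : Fin n × Fin n => U ij.1 ij.2) ∪
      Set.range (fun ij : Fin n × Fin n => V ij.1 ij.2)) ((Set.finite_range _).union (Set.finite_range _)) (by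
    rintro _ (⟨ij, rfl⟩ | ⟨ij, rfl⟩)
    · exact hU _ _
    · exact hV _ _)
  have hUK0 : ∀ i j, U i j ∈ K0 := fun i j => hSK0 (Or.inl ⟨(i, j), rfl⟩)
  have hVK0 : ∀ i j, V i j ∈ K0 := fun i j => hSK0 (Or.inr ⟨(i, j), rfl⟩)
  obtain ⟨E, hE⟩ := base2 hn ha hg0 hf hf0 Δ hsep k δ (D * Module.finrank ℚ K0)
  refine ⟨E, fun H t ht => ?_⟩
  obtain ⟨hHt, h1⟩ := hE H t ht
  refine ⟨hHt, fun g hg hgH => ?_⟩
  obtain ⟨h2, hgen⟩ := h1 g hg hgH
  refine ⟨fun l => er_of_inGap ha (h2 l).1, fun K hK hKD => ?_⟩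
  obtain ⟨K', hKK', hK0K', hK', hKD'⟩ := exists_sup K hK K0 hK0
  have hratK : ∀ (F : Subfield ℂ) (q : ℚ), (q : ℂ) ∈ F := fun F q => SubfieldClass.ratCast_mem F q
  -- rational points
  set q : Fin k → ℚ := fun l => 1 / ((t : ℚ) - g l) with hq
  have hqR : ∀ l, ((q l : ℚ) : ℝ) = 1 / ((t : ℝ) - g l) := fun l => by rw [hq]; push_cast; rfl
  have hqC : ∀ l, (((1 / ((t : ℝ) - g l) : ℝ)) : ℂ) = ((q l : ℚ) : ℂ) := fun l => by rw [hq]; push_cast; rfl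
  have hmapq : ∀ (M : Matrix (Fin n) (Fin n) ℚ[X]) (r : ℚ), M.map (aeval ((r : ℚ) : ℂ)) =
      (M.map (Polynomial.eval r)).map (algebraMap ℚ ℂ) := fun M r => map_q M r rfl
  -- the torsor
  set Q : Fin k → Matrix (Fin n) (Fin n) ℂ := fun l => (qm n (f * (X - C (q l)))).map (algebraMap ℚ ℂ) with hQ
  set c : Fin k → Matrix (Fin n) (Fin n) ℂ := fun l => CM a m (1 / ((t : ℝ) - g l)) with hc
  have hctor : (c, (2 * Real.pi * Complex.I : ℂ)) ∈ Tor (fun l => (-1 / 2 : ℂ) • Q l) := by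
    have h3 : (c, (2 * Real.pi * Complex.I : ℂ)) ∈ Tor (fun j => (-1 / 2 : ℂ) • (Qp n f).map (aeval ((q j : ℚ) : ℂ))) := by
      refine ⟨?_, fun j => ?_⟩
      · exact fun h => Pool.Agent.Y123.ST.transc_two_pi_I (by
          have h' : (2 * Real.pi * Complex.I : ℂ) = 0 := h
          rw [h']
          exact isAlgebraic_zero)
      · have h4 := CM_mem hn ha hf (t := q j) (by rw [hqR]; exact (h2 j).1)
        rw [hqR] at h4
        exact h4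
    rw [← TorF_eq (fun _ => f) q] at h3
    have h4 := h3.2
    exact ⟨h3.1, fun j => Pool.Agent.Y123.ST.rel_iff.1 (h4 j)⟩
  have hQK : ∀ j a b, ((-1 / 2 : ℂ) • Q j) a b ∈ K :=
    Pool.Agent.Y123.ST.half_mem (fun j a b => hratK K _)
  show Pool.Agent.Y123.ST.Om K (blockDiagonal c) (Pool.Agent.Y123.ST.TB Q)
  refine ⟨?_, ?_, ?_⟩
  · rw [Pool.Agent.Y123.ST.subT_iff, Pool.Agent.Y123.ST.TB_eq]
    exact Pool.Agent.Y123.ST.tor_sub hn (by omega) hk hQK hctor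
  · rw [Pool.Agent.Y123.ST.TB_eq]
    exact ⟨c, _, rfl, hctor⟩
  · intro T hT hcT
    rw [Pool.Agent.Y123.ST.TB_eq]
    rintro _ ⟨X', mu, rfl, hX'⟩
    have hVd0 : ∀ z : ℂ, IsUnit (Δ.V.map (aeval z)).det ∧ IsUnit (Δ.U.map (aeval z)).det := by
      intro z
      have h5 : Δ.U.map (aeval z) * Δ.V.map (aeval z) = 1 := by
        rw [← map_aevalC_mul, Δ.UV, map_aevalC_one]
      have h6 : Δ.V.map (aeval z) * Δ.U.map (aeval z) = 1 := by
        rw [← map_aevalC_mul, Δ.VU, map_aevalC_one]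
      exact ⟨Matrix.isUnit_det_of_left_inverse h5, Matrix.isUnit_det_of_left_inverse h6⟩
    have hx : AC a m Δ.V = lam • (U * diagonal (fun k => ∏ j, θ j ^ e k j) * (V * Δ.V.map (aeval (0 : ℂ)))) := by
      have h5 : CM a m 0 = lam • (U * diagonal (fun k => ∏ j, θ j ^ e k j) * V) := hcenE
      unfold AC
      rw [h5, Matrix.smul_mul]
      simp only [Matrix.mul_assoc]
    have hV0 : ∀ i j, (Δ.V.map (aeval (0 : ℂ))) i j ∈ K' := by
      intro i j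
      have h5 := hmapq Δ.V 0
      rw [Rat.cast_zero] at h5
      rw [h5]
      exact hratK K' _
    refine hδ K K' hKK' hK' (D * Module.finrank ℚ K0) (hKD'.trans (Nat.mul_le_mul_right _ hKD)) U
      (V * Δ.V.map (aeval (0 : ℂ))) (AC a m Δ.V) (fun i j => hK0K' _ (hUK0 i j)) (fun i j => ?_) hUd ?_ lam hlam θ hθ e he hx
      (-4 * Real.pi * Complex.I) ?_ (AC_J hn ha hg0 hf Δ.VJ) (fun l => Zc Δ.Z (1 / ((t : ℝ) - g l)))
      (fun l => Δ.U.map (aeval (((1 / ((t : ℝ) - g l) : ℝ)) : ℂ))) c (fun l => (h2 l).2.2) hgen ?_ (fun l => (hVd0 _).2)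
      (fun l => (h2 l).2.1) T _ (2 * Real.pi * Complex.I) (Pool.Agent.Y123.ST.subT_iff.1 hT) hQK hctor hcT
      Pool.Agent.Y123.ST.transc_two_pi_I (X', mu) hX'
    · rw [Matrix.mul_apply]
      exact K'.sum_mem fun k _ => K'.mul_mem (hK0K' _ (hVK0 _ _)) (hV0 _ _)
    · rw [det_mul]
      exact hVd.mul (hVd0 0).1
    · have h6 : (Real.pi : ℂ) ≠ 0 := by exact_mod_cast Real.pi_ne_zero
      exact mul_ne_zero (mul_ne_zero (by norm_num) h6) Complex.I_ne_zero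
    · intro l i j
      rw [hqC, hmapq]
      exact hratK K _

end Pool.Agent.T44.EF
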