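import Pool.Agent.T44.EF.Blk

/-!
# Polynomial matrices
-/

set_option autoImplicit false
set_option linter.unusedSectionVars false

open Matrix

namespace Pool.Agent.T44.EF

open Pool.Agent.Y118.HP Pool.Agent.Y123.ST

/-- polynomials over `K` of degree at most `e` -/
def Bd (K : Subfield ℂ) {σ : Type} (e : ℕ) (P : MvPolynomial σ ℂ) : Prop := P ∈ PK K σ ∧ P.totalDegree ≤ e

variable {K : Subfield ℂ} {σ : Type}

theorem Bd.C {a : ℂ} (ha : a ∈ K) : Bd K 0 (MvPolynomial.C a : MvPolynomial σ ℂ) :=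
  ⟨PK_C ha, by rw [MvPolynomial.totalDegree_C]⟩

theorem Bd.X (s : σ) : Bd K 1 (MvPolynomial.X s : MvPolynomial σ ℂ) :=
  ⟨PK_X s, by rw [MvPolynomial.totalDegree_X]⟩

theorem Bd.mono {e e' : ℕ} (h : e ≤ e') {P : MvPolynomial σ ℂ} (hP : Bd K e P) : Bd K e' P := ⟨hP.1, hP.2.trans h⟩

theorem Bd.mul {e e' : ℕ} {P Q : MvPolynomial σ ℂ} (hP : Bd K e P) (hQ : Bd K e' Q) : Bd K (e + e') (P * Q) :=
  ⟨(PK K σ).mul_mem hP.1 hQ.1, (MvPolynomial.totalDegree_mul _ _).trans (add_le_add hP.2 hQ.2)⟩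

theorem Bd.add {e : ℕ} {P Q : MvPolynomial σ ℂ} (hP : Bd K e P) (hQ : Bd K e Q) : Bd K e (P + Q) :=
  ⟨(PK K σ).add_mem hP.1 hQ.1, (MvPolynomial.totalDegree_add _ _).trans (max_le hP.2 hQ.2)⟩

theorem Bd.sub {e : ℕ} {P Q : MvPolynomial σ ℂ} (hP : Bd K e P) (hQ : Bd K e Q) : Bd K e (P - Q) :=
  ⟨(PK K σ).sub_mem hP.1 hQ.1, (MvPolynomial.totalDegree_sub _ _).trans (max_le hP.2 hQ.2)⟩

theorem Bd.zero {e : ℕ} : Bd K e (0 : MvPolynomial σ ℂ) :=
  ⟨(PK K σ).zero_mem, by rw [MvPolynomial.totalDegree_zero]; exact Nat.zero_le _⟩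

theorem Bd.sum {e : ℕ} {ι : Type*} (s : Finset ι) {P : ι → MvPolynomial σ ℂ} (hP : ∀ i ∈ s, Bd K e (P i)) :
    Bd K e (∑ i ∈ s, P i) := by
  classical
  induction s using Finset.induction_on with
  | empty => rw [Finset.sum_empty]; exact Bd.zero
  | insert i s hi ih =>
    rw [Finset.sum_insert hi]
    exact (hP i (Finset.mem_insert_self _ _)).add (ih fun k hk => hP k (Finset.mem_insert_of_mem hk))

theorem Bd.prod {ι : Type*} (s : Finset ι) {e : ι → ℕ} {P : ι → MvPolynomial σ ℂ} (hP : ∀ i ∈ s, Bd K (e i) (P i)) :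
    Bd K (∑ i ∈ s, e i) (∏ i ∈ s, P i) := by
  classical
  induction s using Finset.induction_on with
  | empty =>
    rw [Finset.sum_empty, Finset.prod_empty]
    exact Bd.C K.one_mem
  | insert i s hi ih =>
    rw [Finset.sum_insert hi, Finset.prod_insert hi]
    exact (hP i (Finset.mem_insert_self _ _)).mul (ih fun k hk => hP k (Finset.mem_insert_of_mem hk))

theorem Bd.pow {e : ℕ} {P : MvPolynomial σ ℂ} (hP : Bd K e P) (k : ℕ) : Bd K (k * e) (P ^ k) := by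
  have h := Bd.prod (Finset.range k) (e := fun _ => e) (P := fun _ => P) (fun _ _ => hP)
  rwa [Finset.sum_const, Finset.prod_const, Finset.card_range, smul_eq_mul] at h

theorem Bd.det {e r : ℕ} {M : Matrix (Fin r) (Fin r) (MvPolynomial σ ℂ)} (hM : ∀ i j, Bd K e (M i j)) :
    Bd K (r * e) M.det := by
  rw [Matrix.det_apply']
  refine Bd.sum _ fun τ _ => ?_
  have h1 : Bd K (r * e) (∏ i, M (τ i) i) := by
    have h := Bd.prod Finset.univ (e := fun _ : Fin r => e) (P := fun i => M (τ i) i) (fun i _ => hM _ _)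
    rwa [Finset.sum_const, Finset.card_univ, Fintype.card_fin, smul_eq_mul] at h
  have h2 : Bd K 0 (((Equiv.Perm.sign τ : ℤˣ) : ℤ) : MvPolynomial σ ℂ) := by
    have h3 : (((Equiv.Perm.sign τ : ℤˣ) : ℤ) : MvPolynomial σ ℂ) = MvPolynomial.C (((Equiv.Perm.sign τ : ℤˣ) : ℤ) : ℂ) := by
      rw [map_intCast]
    rw [h3]
    exact Bd.C (K.intCast_mem _)
  have h4 := h2.mul h1
  rwa [zero_add] at h4

variable {n N d : ℕ}

/-- the generic matrix -/
noncomputable def GbP (V0 : Matrix (Fin n) (Fin n) ℂ) : Matrix (VV n N) (VV n N) (MvPolynomial (VV n N) ℂ) :=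
  Matrix.of fun v w => if v.1 = w.1 ∧ v.2.1 = w.2.1 then
    ∑ m, MvPolynomial.C (V0 v.2.2 m) * MvPolynomial.X (v.1, m, w.2.2) else 0

theorem eval_GbP (V0 : Matrix (Fin n) (Fin n) ℂ) (Y : Fin N → Matrix (Fin n) (Fin n) ℂ) (v w : VV n N) :
    MvPolynomial.eval (cd Y) (GbP V0 v w) = Gb (fun l => V0 * Y l) v w := by
  unfold GbP
  rw [Matrix.of_apply, Gb_apply]
  split_ifs
  · rw [map_sum, Matrix.mul_apply]
    refine Finset.sum_congr rfl fun m _ => ?_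
    rw [map_mul, MvPolynomial.eval_C, MvPolynomial.eval_X]
    rfl
  · exact map_zero _

theorem Bd_GbP {V0 : Matrix (Fin n) (Fin n) ℂ} (hV0 : ∀ i j, V0 i j ∈ K) (v w : VV n N) : Bd K 1 (GbP V0 v w) := by
  unfold GbP
  rw [Matrix.of_apply]
  split_ifs
  · refine Bd.sum _ fun m _ => ?_
    exact (Bd.C (hV0 _ _)).mul (Bd.X _)
  · exact Bd.zero

/-- the generic point of the orbit of a tensor -/
noncomputable def MpP (V0 : Matrix (Fin n) (Fin n) ℂ) (a : (Fin d → VV n N) → ℂ) (q : Fin d → VV n N) :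
    MvPolynomial (VV n N) ℂ := ∑ J, MvPolynomial.C (a J) * ∏ t, GbP V0 (q t) (J t)

theorem eval_MpP (V0 : Matrix (Fin n) (Fin n) ℂ) (a : (Fin d → VV n N) → ℂ) (Y : Fin N → Matrix (Fin n) (Fin n) ℂ)
    (q : Fin d → VV n N) : MvPolynomial.eval (cd Y) (MpP V0 a q) = rh (Gb (fun l => V0 * Y l)) a q := by
  unfold MpP
  rw [map_sum, rh_apply]
  refine Finset.sum_congr rfl fun J _ => ?_
  rw [map_mul, MvPolynomial.eval_C, map_prod]
  congr 1
  exact Finset.prod_congr rfl fun t _ => eval_GbP _ _ _ _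

theorem Bd_MpP {V0 : Matrix (Fin n) (Fin n) ℂ} (hV0 : ∀ i j, V0 i j ∈ K) {a : (Fin d → VV n N) → ℂ}
    (ha : ∀ J, a J ∈ K) (q : Fin d → VV n N) : Bd K d (MpP V0 a q) := by
  refine Bd.sum _ fun J _ => ?_
  have h1 := Bd.prod Finset.univ (e := fun _ : Fin d => 1) (P := fun t => GbP V0 (q t) (J t))
    (fun t _ => Bd_GbP hV0 _ _)
  rw [Finset.sum_const, Finset.card_univ, Fintype.card_fin, smul_eq_mul, mul_one] at h1
  have h2 := (Bd.C (σ := VV n N) (ha J)).mul h1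
  rwa [zero_add] at h2

/-- minors -/
def mn {r : ℕ} {ι : Type} {R : Type} [CommRing R] (M : Matrix (Fin r) ι R) (s : Fin r → ι) : R := (M.submatrix id s).det

/-- the matrix of the orbit -/
def Mo {r : ℕ} (V0 : Matrix (Fin n) (Fin n) ℂ) (a : Fin r → (Fin d → VV n N) → ℂ)
    (Y : Fin N → Matrix (Fin n) (Fin n) ℂ) : Matrix (Fin r) (Fin d → VV n N) ℂ :=
  Matrix.of fun i q => rh (Gb (fun l => V0 * Y l)) (a i) q

/-- the generic minors -/
noncomputable def mnP {r : ℕ} (V0 : Matrix (Fin n) (Fin n) ℂ) (a : Fin r → (Fin d → VV n N) → ℂ)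
    (s : Fin r → (Fin d → VV n N)) : MvPolynomial (VV n N) ℂ := mn (Matrix.of fun i q => MpP V0 (a i) q) s

theorem eval_mnP {r : ℕ} (V0 : Matrix (Fin n) (Fin n) ℂ) (a : Fin r → (Fin d → VV n N) → ℂ)
    (s : Fin r → (Fin d → VV n N)) (Y : Fin N → Matrix (Fin n) (Fin n) ℂ) :
    MvPolynomial.eval (cd Y) (mnP V0 a s) = mn (Mo V0 a Y) s := by
  unfold mnP mn
  rw [RingHom.map_det]
  congr 1
  ext i k
  exact eval_MpP _ _ _ _

theorem Bd_mnP {r : ℕ} {V0 : Matrix (Fin n) (Fin n) ℂ} (hV0 : ∀ i j, V0 i j ∈ K) {a : Fin r → (Fin d → VV n N) → ℂ}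
    (ha : ∀ i J, a i J ∈ K) (s : Fin r → (Fin d → VV n N)) : Bd K (r * d) (mnP V0 a s) :=
  Bd.det fun i _ => Bd_MpP hV0 (ha i) _

end Pool.Agent.T44.EF
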