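import Pool.Agent.T44.EF.Rel
import Pool.Agent.Y113.GG.Alg

/-!
# The orbit of a rational space of tensors which meets a torus orbit
-/

set_option autoImplicit false
set_option linter.unusedSectionVars false

open Matrix

namespace Pool.Agent.T44.EF

open Pool.Agent.Y118.HP Pool.Agent.Y123.ST

variable {n N d r s : ℕ} {K : Subfield ℂ}

theorem single_mul' (l : Fin N) (X Y : Matrix (Fin n) (Fin n) ℂ) :
    (Pi.single l X : Fin N → Matrix (Fin n) (Fin n) ℂ) * Pi.single l Y = Pi.single l (X * Y) := by
  funext k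
  by_cases h : k = l
  · subst h
    simp
  · rw [Pi.mul_apply, Pi.single_eq_of_ne h, Pi.single_eq_of_ne h, Pi.single_eq_of_ne h, zero_mul]

/-- the matrices in a block whose derivative stabilises a space of tensors -/
noncomputable def Hl (S : Submodule ℂ ((Fin d → VV n N) → ℂ)) (l : Fin N) : Submodule ℂ (Matrix (Fin n) (Fin n) ℂ) where
  carrier := {X | ∀ u ∈ S, Lt (Gb (Pi.single l X)) u ∈ S}
  zero_mem' := by
    intro u _
    rw [Pi.single_zero]
    have h1 : Gb (0 : Fin N → Matrix (Fin n) (Fin n) ℂ) = 0 := by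
      have := Gb_smul (n := n) (N := N) 0 0
      rwa [zero_smul, zero_smul] at this
    rw [h1, map_zero]
    exact S.zero_mem
  add_mem' := by
    intro X Y hX hY u hu
    rw [Pi.single_add, Gb_add, map_add]
    exact S.add_mem (hX u hu) (hY u hu)
  smul_mem' := by
    intro c X hX u hu
    rw [Pi.single_smul, Gb_smul, map_smul]
    exact S.smul_mem c (hX u hu)

theorem mem_Hl {S : Submodule ℂ ((Fin d → VV n N) → ℂ)} {l : Fin N} {X : Matrix (Fin n) (Fin n) ℂ} :
    X ∈ Hl S l ↔ ∀ u ∈ S, Lt (Gb (Pi.single l X)) u ∈ S := Iff.rfl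

theorem Hl_br {S : Submodule ℂ ((Fin d → VV n N) → ℂ)} {l : Fin N} {X Y : Matrix (Fin n) (Fin n) ℂ}
    (hX : X ∈ Hl S l) (hY : Y ∈ Hl S l) : X * Y - Y * X ∈ Hl S l := by
  intro u hu
  rw [Pi.single_sub, Gb_sub, ← single_mul', ← single_mul', ← Gb_mul, ← Gb_mul, ← Lt_bracket, LinearMap.sub_apply,
    Module.End.mul_apply, Module.End.mul_apply]
  exact S.sub_mem (hX _ (hY u hu)) (hY _ (hX u hu))

/-- Cramer's rule -/
theorem cramer_id {ι : Type} (M : Matrix (Fin r) ι ℂ) (P : Fin r → ι) (i : Fin r) (q : ι) :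
    ∑ k, M i (P k) * mn M (Function.update P k q) = mn M P * M i q := by
  have h1 := congrFun (Matrix.mulVec_cramer (M.submatrix id P) (fun i => M i q)) i
  have h2 : ∀ k, (M.submatrix id P).cramer (fun i => M i q) k = mn M (Function.update P k q) := by
    intro k
    rw [Matrix.cramer_apply]
    unfold mn
    congr 1
    ext a b
    rw [Matrix.updateCol_apply, Matrix.submatrix_apply, Matrix.submatrix_apply, Function.update_apply]
    split_ifs <;> rfl
  simp only [Matrix.mulVec, dotProduct, h2] at h1
  exact h1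

theorem cramer_adj {ι : Type} (M : Matrix (Fin r) ι ℂ) (P : Fin r → ι) (k : Fin r) (q : ι) :
    mn M (Function.update P k q) = ∑ i, (M.submatrix id P).adjugate k i * M i q := by
  have h1 := congrFun (Matrix.cramer_eq_adjugate_mulVec (M.submatrix id P) (fun i => M i q)) k
  have h2 : (M.submatrix id P).cramer (fun i => M i q) k = mn M (Function.update P k q) := by
    rw [Matrix.cramer_apply]
    unfold mn
    congr 1
    ext a b
    rw [Matrix.updateCol_apply, Matrix.submatrix_apply, Matrix.submatrix_apply, Function.update_apply]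
    split_ifs <;> rfl
  rw [← h2, h1]
  rfl

theorem diff_mn {ι : Type} {M : ℂ → Matrix (Fin r) ι ℂ} (hM : ∀ i q, DifferentiableAt ℂ (fun τ => M τ i q) 0)
    (t : Fin r → ι) : DifferentiableAt ℂ (fun τ => mn (M τ) t) 0 := by
  unfold mn
  simp only [Matrix.det_apply']
  refine DifferentiableAt.fun_sum fun τ _ => DifferentiableAt.const_mul ?_ _
  exact DifferentiableAt.fun_finsetProd fun i _ => hM _ _

/-- the derivative along a block -/
theorem deriv_Mo (V0 : Matrix (Fin n) (Fin n) ℂ) (a : Fin r → (Fin d → VV n N) → ℂ)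
    (y : Fin N → Matrix (Fin n) (Fin n) ℂ) (l : Fin N) (v : Fin n → ℂ) (i : Fin r) (q : Fin d → VV n N) :
    HasDerivAt (fun τ => Mo V0 a (fun k => y k * sg l (TV v τ) k) i q)
      (rh (Gb (fun k => V0 * y k)) (Lt (Gb (Pi.single l (EE v))) (a i)) q) 0 := by
  have h1 : ∀ τ, Mo V0 a (fun k => y k * sg l (TV v τ) k) i q =
      ∑ J, rh (1 + τ • Gb (Pi.single l (EE v))) (a i) J * ∏ t, Gb (fun k => V0 * y k) (q t) (J t) := by
    intro τ
    unfold Mo
    rw [Matrix.of_apply]
    have h2 : (fun k => V0 * (y k * sg l (TV v τ) k)) = (fun k => V0 * y k) * sg l (TV v τ) := by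
      funext k
      rw [Pi.mul_apply, Matrix.mul_assoc]
    have h3 : Gb (sg l (TV v τ)) = 1 + τ • Gb (Pi.single l (EE v)) := by
      rw [← Gb_one, ← Gb_smul, ← Gb_add]
      congr 1
      funext k
      by_cases h : k = l
      · subst h
        rw [sg_same, Pi.add_apply, Pi.smul_apply, Pi.single_eq_same]
        rfl
      · rw [sg_ne h, Pi.add_apply, Pi.smul_apply, Pi.single_eq_of_ne h, smul_zero, add_zero]
        rfl
    rw [h2, ← Gb_mul, h3, ← rh_mul, Module.End.mul_apply]
    exact rh_apply _ _ _
  simp only [h1]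
  rw [rh_apply]
  exact HasDerivAt.fun_sum fun J _ => (rh_deriv _ _ J).mul_const _

theorem path_zero (y : Fin N → Matrix (Fin n) (Fin n) ℂ) (l : Fin N) (v : Fin n → ℂ) :
    (fun k => y k * sg l (TV v 0) k) = y := by
  funext k
  by_cases h : k = l
  · subst h
    rw [sg_same, TV_EE, zero_smul, add_zero, Matrix.mul_one]
  · rw [sg_ne h, Matrix.mul_one]

theorem rank_bound (hK : FiniteDimensional ℚ K) {D δ : ℕ} (hKD : Module.finrank ℚ K ≤ D)
    {y : Fin N → Matrix (Fin n) (Fin n) ℂ} (hy : ∀ l, y l ∈ SpS ℂ n) (hG : Gen y δ D)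
    {V0 : Matrix (Fin n) (Fin n) ℂ} (hV0 : ∀ i j, V0 i j ∈ K) {a : Fin r → (Fin d → VV n N) → ℂ}
    (ha : ∀ i J, a i J ∈ K) (hali : LinearIndependent ℂ a)
    (hinj : Function.Injective (rh (d := d) (Gb (fun k => V0 * y k))))
    {B : Matrix (Fin r) (Fin d → VV n N) ℂ} (hB : ∀ i q, B i q ∈ K)
    {C : Matrix (Fin r) (Fin r) ℂ} {χ : (Fin d → VV n N) → ℂ} {θ : Fin s → ℂ} (hθ : ∀ j, θ j ≠ 0)
    {w : (Fin d → VV n N) → Fin s → ℤ} {E0 : ℕ} (hw : ∀ q j, |w q j| ≤ E0) (hχ : ∀ q, χ q = ∏ j, θ j ^ w q j)
    (hM : ∀ i q, Mo V0 a y i q = ∑ k, C i k * B k q * χ q) (hδ : dexp s r E0 d ≤ δ) (l : Fin N)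
    (v : Fin (s + 1) → Fin n → ℂ) :
    ¬ LinearIndependent ℂ (fun i => (Hl (Submodule.span ℂ (Set.range a)) l).mkQ (EE (v i))) := by
  classical
  intro hli
  -- a non zero minor
  obtain ⟨P, -, hP⟩ := Pool.Agent.Y113.GG.exists_minor (fun i => Mo V0 a y i) Set.univ (by
    intro x hx
    have h1 : rh (Gb (fun k => V0 * y k)) (∑ i, x i • a i) = 0 := by
      rw [map_sum]
      funext q
      rw [Finset.sum_apply, Pi.zero_apply, ← hx q (Set.mem_univ _)]
      refine Finset.sum_congr rfl fun i _ => ?_
      rw [map_smul, Pi.smul_apply, smul_eq_mul]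
      rfl
    have h2 := hinj (h1.trans (map_zero _).symm)
    funext i
    exact Fintype.linearIndependent_iff.1 hali x h2 i)
  have hP' : mn (Mo V0 a y) P ≠ 0 := hP
  set M := Mo V0 a y with hMdef
  -- the derivatives
  set M' : Fin (s + 1) → Fin r → (Fin d → VV n N) → ℂ := fun j i q =>
    rh (Gb (fun k => V0 * y k)) (Lt (Gb (Pi.single l (EE (v j)))) (a i)) q with hM'
  have hdM : ∀ j i q, HasDerivAt (fun τ => Mo V0 a (fun k => y k * sg l (TV (v j) τ) k) i q) (M' j i q) 0 :=
    fun j i q => deriv_Mo V0 a y l (v j) i q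
  have hdN : ∀ j t, ∃ x, HasDerivAt (fun τ => mn (Mo V0 a (fun k => y k * sg l (TV (v j) τ) k)) t) x 0 :=
    fun j t => ⟨_, (diff_mn (M := fun τ => Mo V0 a (fun k => y k * sg l (TV (v j) τ) k))
      (fun i q => (hdM j i q).differentiableAt) t).hasDerivAt⟩
  choose Nd hNd using hdN
  have hM0 : ∀ j, Mo V0 a (fun k => y k * sg l (TV (v j) 0) k) = M := fun j => by rw [path_zero]
  -- the differentiated Cramer rule
  have hcr : ∀ j i q, ∑ k, (M' j i (P k) * mn M (Function.update P k q) + M i (P k) * Nd j (Function.update P k q)) =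
      Nd j P * M i q + mn M P * M' j i q := by
    intro j i q
    have h1 := HasDerivAt.fun_sum (u := Finset.univ) fun k _ => (hdM j i (P k)).fun_mul (hNd j (Function.update P k q))
    have h2 := (hNd j P).fun_mul (hdM j i q)
    simp only [cramer_id] at h1
    rw [hM0] at h1 h2
    exact h1.unique h2
  set Λ : Fin (s + 1) → (Fin r × (Fin d → VV n N)) → ℂ := fun j kq =>
    Nd j (Function.update P kq.1 kq.2) * mn M P - mn M (Function.update P kq.1 kq.2) * Nd j P with hΛ
  obtain ⟨J, -, hJ⟩ := Pool.Agent.Y113.GG.exists_minor Λ Set.univ (by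
    intro x hx
    have hx' : ∀ k q, (∑ j, x j * Nd j (Function.update P k q)) * mn M P =
        mn M (Function.update P k q) * ∑ j, x j * Nd j P := by
      intro k q
      have h1 := hx (k, q) (Set.mem_univ _)
      simp only [hΛ, mul_sub, Finset.sum_sub_distrib] at h1
      rw [sub_eq_zero] at h1
      rw [Finset.sum_mul, Finset.mul_sum]
      refine Eq.trans (Finset.sum_congr rfl fun j _ => ?_) (h1.trans (Finset.sum_congr rfl fun j _ => ?_)) <;> ring
    set Mx : Fin r → (Fin d → VV n N) → ℂ := fun i q => ∑ j, x j * M' j i q with hMx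
    have h2 : ∀ i q, Mx i q = ∑ k, (Mx i (P k) / mn M P) * mn M (Function.update P k q) := by
      intro i q
      have h3 : ∑ k, (Mx i (P k) * mn M (Function.update P k q) +
          M i (P k) * ∑ j, x j * Nd j (Function.update P k q)) = (∑ j, x j * Nd j P) * M i q + mn M P * Mx i q := by
        have h4 : ∑ j, x j * ∑ k, (M' j i (P k) * mn M (Function.update P k q) + M i (P k) * Nd j (Function.update P k q)) =
            ∑ j, x j * (Nd j P * M i q + mn M P * M' j i q) := Finset.sum_congr rfl fun j _ => by rw [hcr]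
        have h5 : ∑ j, x j * (Nd j P * M i q + mn M P * M' j i q) = (∑ j, x j * Nd j P) * M i q + mn M P * Mx i q := by
          simp only [hMx, Finset.sum_mul, Finset.mul_sum, ← Finset.sum_add_distrib]
          exact Finset.sum_congr rfl fun j _ => by ring
        rw [← h5, ← h4]
        simp only [hMx, Finset.sum_mul, Finset.mul_sum, ← Finset.sum_add_distrib]
        rw [Finset.sum_comm]
        exact Finset.sum_congr rfl fun j _ => Finset.sum_congr rfl fun k _ => by ring
      have h6 : ∑ k, M i (P k) * ((∑ j, x j * Nd j (Function.update P k q)) * mn M P) =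
          (∑ j, x j * Nd j P) * (mn M P * M i q) := by
        rw [← cramer_id M P i q, Finset.mul_sum]
        refine Finset.sum_congr rfl fun k _ => ?_
        rw [hx']
        ring
      have h7 : mn M P * Mx i q = ∑ k, Mx i (P k) * mn M (Function.update P k q) := by
        have h8 : mn M P * (mn M P * Mx i q) = mn M P * ∑ k, Mx i (P k) * mn M (Function.update P k q) := by
          rw [Finset.sum_add_distrib] at h3
          have h9 : mn M P * ∑ k, M i (P k) * ∑ j, x j * Nd j (Function.update P k q) =
              (∑ j, x j * Nd j P) * (mn M P * M i q) := by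
            rw [← h6, Finset.mul_sum]
            exact Finset.sum_congr rfl fun k _ => by ring
          linear_combination h9 - mn M P * h3
        exact mul_left_cancel₀ hP' h8
      have h10 : Mx i q = (mn M P)⁻¹ * (mn M P * Mx i q) := by
        rw [← mul_assoc, inv_mul_cancel₀ hP', one_mul]
      rw [h10, h7, Finset.mul_sum]
      exact Finset.sum_congr rfl fun k _ => by rw [div_eq_mul_inv]; ring
    have h3 : ∀ i, Lt (Gb (Pi.single l (∑ j, x j • EE (v j)))) (a i) ∈ Submodule.span ℂ (Set.range a) := by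
      intro i
      have h4 : rh (Gb (fun k => V0 * y k)) (Lt (Gb (Pi.single l (∑ j, x j • EE (v j)))) (a i)) =
          rh (Gb (fun k => V0 * y k)) (∑ i', (∑ k, (Mx i (P k) / mn M P) * (M.submatrix id P).adjugate k i') • a i') := by
        funext q
        have h5 : rh (Gb (fun k => V0 * y k)) (Lt (Gb (Pi.single l (∑ j, x j • EE (v j)))) (a i)) q = Mx i q := by
          have h6 : Lt (d := d) (Gb (Pi.single l (∑ j, x j • EE (v j)))) = ∑ j, x j • Lt (Gb (Pi.single l (EE (v j)))) := by
            have h7 : ∀ t : Finset (Fin (s + 1)), Lt (d := d) (Gb (Pi.single l (∑ j ∈ t, x j • EE (v j)))) =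
                ∑ j ∈ t, x j • Lt (Gb (Pi.single l (EE (v j)))) := by
              intro t
              induction t using Finset.induction_on with
              | empty =>
                rw [Finset.sum_empty, Finset.sum_empty, Pi.single_zero]
                have h1 : Gb (0 : Fin N → Matrix (Fin n) (Fin n) ℂ) = 0 := by
                  have := Gb_smul (n := n) (N := N) 0 0
                  rwa [zero_smul, zero_smul] at this
                rw [h1, map_zero]
              | insert j t hj ih =>
                rw [Finset.sum_insert hj, Finset.sum_insert hj, Pi.single_add, Gb_add, map_add, ih, Pi.single_smul,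
                  Gb_smul, map_smul]
            exact h7 Finset.univ
          rw [h6, LinearMap.sum_apply, map_sum, Finset.sum_apply]
          refine Finset.sum_congr rfl fun j _ => ?_
          rw [LinearMap.smul_apply, map_smul, Pi.smul_apply, smul_eq_mul]
        have h6 : rh (Gb (fun k => V0 * y k)) (∑ i', (∑ k, (Mx i (P k) / mn M P) * (M.submatrix id P).adjugate k i') • a i') q =
            ∑ i', (∑ k, (Mx i (P k) / mn M P) * (M.submatrix id P).adjugate k i') * M i' q := by
          rw [map_sum, Finset.sum_apply]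
          refine Finset.sum_congr rfl fun i' _ => ?_
          rw [map_smul, Pi.smul_apply, smul_eq_mul]
          rfl
        rw [h5, h6, h2]
        simp only [cramer_adj, Finset.mul_sum, Finset.sum_mul]
        rw [Finset.sum_comm]
        exact Finset.sum_congr rfl fun i' _ => Finset.sum_congr rfl fun k _ => by ring
      rw [hinj h4]
      exact Submodule.sum_mem _ fun i' _ => Submodule.smul_mem _ _ (Submodule.subset_span ⟨i', rfl⟩)
    have h4 : ∑ j, x j • EE (v j) ∈ Hl (Submodule.span ℂ (Set.range a)) l := by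
      intro u hu
      induction hu using Submodule.span_induction with
      | mem u hu =>
        obtain ⟨i, rfl⟩ := hu
        exact h3 i
      | zero => rw [map_zero]; exact Submodule.zero_mem _
      | add u u' _ _ h h' => rw [map_add]; exact Submodule.add_mem _ h h'
      | smul c u _ h => rw [map_smul]; exact Submodule.smul_mem _ _ h
    have h5 : ∑ j, x j • (Hl (Submodule.span ℂ (Set.range a)) l).mkQ (EE (v j)) = 0 := by
      have h6 := (Submodule.Quotient.mk_eq_zero _).2 h4
      rw [← Submodule.mkQ_apply, map_sum] at h6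
      simpa only [map_smul] using h6
    funext j
    exact Fintype.linearIndependent_iff.1 hli x h5 j)
  obtain ⟨x, hx0, hx⟩ := rel_vec hK hKD hG hV0 ha hB hθ hw hχ hM hδ P hP' (fun b => Function.update P (J b).1 (J b).2)
  apply hJ
  rw [← Matrix.exists_mulVec_eq_zero_iff]
  refine ⟨x, hx0, ?_⟩
  funext j
  have h1 := hx (fun τ k => y k * sg l (TV (v j) τ) k) (path_zero y l (v j))
    (fun τ k => SpS_mul (hy k) (sg_mem l (v j) τ k)) (Nd j) (hNd j)
  show ∑ b, Λ j (J b) * x b = 0
  rw [← h1]
  exact Finset.sum_congr rfl fun b _ => by rw [mul_comm]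

end Pool.Agent.T44.EF
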