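import Pool.Agent.T44.EF.Pol

/-!
# Relations between the minors at a point of a torus orbit
-/

set_option autoImplicit false
set_option linter.unusedSectionVars false

open Matrix

namespace Pool.Agent.T44.EF

open Pool.Agent.Y118.HP Pool.Agent.Y123.ST

/-- the size of the exponents -/
def mexp (s F : ℕ) : ℕ := (2 * (s + 1) * F + 1) ^ s

/-- pigeonhole -/
theorem pigeon (s F : ℕ) (v : Fin (s + 1) → Fin s → ℤ) (hv : ∀ k j, |v k j| ≤ F) :
    ∃ α β : Fin (s + 1) → Fin (mexp s F + 1), α ≠ β ∧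
      ∀ j, ∑ k, ((α k : ℕ) : ℤ) * v k j = ∑ k, ((β k : ℕ) : ℤ) * v k j := by
  classical
  set m := mexp s F with hm
  set B : ℕ := (s + 1) * m * F with hB
  let f : (Fin (s + 1) → Fin (m + 1)) → (Fin s → ℤ) := fun α j => ∑ k, ((α k : ℕ) : ℤ) * v k j
  have hf : ∀ α ∈ (Finset.univ : Finset (Fin (s + 1) → Fin (m + 1))),
      f α ∈ Fintype.piFinset (fun _ : Fin s => Finset.Icc (-(B : ℤ)) B) := by
    intro α _
    rw [Fintype.mem_piFinset]
    intro j
    rw [Finset.mem_Icc, ← abs_le]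
    refine (Finset.abs_sum_le_sum_abs _ _).trans ?_
    have h1 : ∀ k ∈ (Finset.univ : Finset (Fin (s + 1))), |((α k : ℕ) : ℤ) * v k j| ≤ ((m * F : ℕ) : ℤ) := by
      intro k _
      rw [abs_mul, Nat.abs_cast]
      push_cast
      refine mul_le_mul ?_ (hv k j) (abs_nonneg _) (Nat.cast_nonneg _)
      exact_mod_cast Nat.lt_succ_iff.1 (α k).2
    refine (Finset.sum_le_card_nsmul _ _ _ h1).trans ?_
    rw [Finset.card_univ, Fintype.card_fin, hB]
    push_cast
    rw [nsmul_eq_mul]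
    push_cast
    exact le_of_eq (by ring)
  have hcard : (Fintype.piFinset (fun _ : Fin s => Finset.Icc (-(B : ℤ)) B)).card <
      (Finset.univ : Finset (Fin (s + 1) → Fin (m + 1))).card := by
    rw [Fintype.card_piFinset_const, Int.card_Icc, Finset.card_univ, Fintype.card_fun, Fintype.card_fin,
      Fintype.card_fin]
    have h1 : ((B : ℤ) + 1 - -(B : ℤ)).toNat = 2 * B + 1 := by omega
    rw [h1]
    have h2 : 2 * B + 1 ≤ (2 * (s + 1) * F + 1) * (m + 1) := by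
      rw [hB]
      nlinarith [Nat.zero_le (2 * (s + 1) * F), Nat.zero_le m]
    calc (2 * B + 1) ^ s ≤ ((2 * (s + 1) * F + 1) * (m + 1)) ^ s := Nat.pow_le_pow_left h2 s
      _ = m * (m + 1) ^ s := by rw [mul_pow, hm, mexp]
      _ < (m + 1) * (m + 1) ^ s := Nat.mul_lt_mul_of_pos_right (Nat.lt_succ_self m) (by positivity)
      _ = (m + 1) ^ (s + 1) := by rw [pow_succ]; ring
  obtain ⟨α, _, β, _, h1, h2⟩ := Finset.exists_ne_map_eq_of_card_lt_of_maps_to hcard hf
  exact ⟨α, β, h1, fun j => congrFun h2 j⟩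

/-- derivative of a power -/
theorem deriv_pow' {f : ℂ → ℂ} {f' : ℂ} (hf : HasDerivAt f f' 0) (hf0 : f 0 ≠ 0) (k : ℕ) :
    HasDerivAt (fun τ => f τ ^ k) (f 0 ^ k * (k * (f' / f 0))) 0 := by
  refine HasDerivAt.congr_deriv (hf.fun_pow k) ?_
  rcases k with _ | k
  · simp
  · rw [Nat.add_sub_cancel, pow_succ]
    field_simp

theorem deriv_prod' {κ : Type} (t : Finset κ) {f : κ → ℂ → ℂ} {f' : κ → ℂ} (hf : ∀ k ∈ t, HasDerivAt (f k) (f' k) 0)
    (hf0 : ∀ k ∈ t, f k 0 ≠ 0) (α : κ → ℕ) :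
    HasDerivAt (fun τ => ∏ k ∈ t, f k τ ^ α k) ((∏ k ∈ t, f k 0 ^ α k) * ∑ k ∈ t, α k * (f' k / f k 0)) 0 := by
  classical
  induction t using Finset.induction_on with
  | empty =>
    simp only [Finset.prod_empty, Finset.sum_empty, mul_zero]
    exact hasDerivAt_const _ _
  | insert i t hi ih =>
    simp only [Finset.prod_insert hi, Finset.sum_insert hi]
    have h1 := deriv_pow' (hf i (Finset.mem_insert_self _ _)) (hf0 i (Finset.mem_insert_self _ _)) (α i)
    have h2 := ih (fun k hk => hf k (Finset.mem_insert_of_mem hk)) (fun k hk => hf0 k (Finset.mem_insert_of_mem hk))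
    refine HasDerivAt.congr_deriv (h1.fun_mul h2) ?_
    ring

theorem deriv_mon {κ : Type} [Fintype κ] {f : κ → ℂ → ℂ} {f' : κ → ℂ} {g : ℂ → ℂ} {g' : ℂ}
    (hf : ∀ k, HasDerivAt (f k) (f' k) 0) (hf0 : ∀ k, f k 0 ≠ 0) (hg : HasDerivAt g g' 0) (hg0 : g 0 ≠ 0)
    (α : κ → ℕ) (e : ℕ) (c : ℂ) :
    HasDerivAt (fun τ => c * ((∏ k, f k τ ^ α k) * g τ ^ e))
      (c * ((∏ k, f k 0 ^ α k) * g 0 ^ e) * (∑ k, α k * (f' k / f k 0) + e * (g' / g 0))) 0 := by
  have h1 := deriv_prod' Finset.univ (fun k _ => hf k) (fun k _ => hf0 k) α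
  have h2 := deriv_pow' hg hg0 e
  refine HasDerivAt.congr_deriv ((h1.fun_mul h2).const_mul c) ?_
  ring

theorem zp_sum {x : ℂ} (hx : x ≠ 0) {κ : Type*} (t : Finset κ) (f : κ → ℤ) : ∏ i ∈ t, x ^ f i = x ^ ∑ i ∈ t, f i := by
  classical
  induction t using Finset.induction_on with
  | empty => simp
  | insert i t hi ih => rw [Finset.prod_insert hi, Finset.sum_insert hi, ih, zpow_add₀ hx]

variable {n N d r s : ℕ} {K : Subfield ℂ}

theorem mn_fac {ι : Type} {M B : Matrix (Fin r) ι ℂ} {C : Matrix (Fin r) (Fin r) ℂ} {χ : ι → ℂ}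
    (hM : ∀ i q, M i q = ∑ k, C i k * B k q * χ q) (t : Fin r → ι) : mn M t = C.det * (mn B t * ∏ i, χ (t i)) := by
  unfold mn
  have h1 : M.submatrix id t = C * (B.submatrix id t) * diagonal (fun i => χ (t i)) := by
    ext i j
    rw [Matrix.mul_diagonal, Matrix.mul_apply, Matrix.submatrix_apply, id, hM, Finset.sum_mul]
    rfl
  rw [h1, Matrix.det_mul, Matrix.det_mul, Matrix.det_diagonal, mul_assoc]

theorem mn_mem {ι : Type} {B : Matrix (Fin r) ι ℂ} (hB : ∀ i q, B i q ∈ K) (t : Fin r → ι) : mn B t ∈ K := by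
  unfold mn
  rw [Matrix.det_apply']
  refine K.sum_mem fun τ _ => K.mul_mem (K.intCast_mem _) (K.prod_mem fun i _ => hB _ _)

/-- the bound for the degrees -/
def dexp (s r E0 d : ℕ) : ℕ := (s + 1) * mexp s (2 * (r * E0)) * (r * d)

/-- **Relations between the derivatives of the minors** -/
theorem rel_vec (hK : FiniteDimensional ℚ K) {D δ : ℕ} (hKD : Module.finrank ℚ K ≤ D)
    {y : Fin N → Matrix (Fin n) (Fin n) ℂ} (hG : Gen y δ D)
    {V0 : Matrix (Fin n) (Fin n) ℂ} (hV0 : ∀ i j, V0 i j ∈ K) {a : Fin r → (Fin d → VV n N) → ℂ}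
    (ha : ∀ i J, a i J ∈ K) {B : Matrix (Fin r) (Fin d → VV n N) ℂ} (hB : ∀ i q, B i q ∈ K)
    {C : Matrix (Fin r) (Fin r) ℂ} {χ : (Fin d → VV n N) → ℂ} {θ : Fin s → ℂ} (hθ : ∀ j, θ j ≠ 0)
    {w : (Fin d → VV n N) → Fin s → ℤ} {E0 : ℕ} (hw : ∀ q j, |w q j| ≤ E0) (hχ : ∀ q, χ q = ∏ j, θ j ^ w q j)
    (hM : ∀ i q, Mo V0 a y i q = ∑ k, C i k * B k q * χ q) (hδ : dexp s r E0 d ≤ δ)
    (P : Fin r → Fin d → VV n N) (hP : mn (Mo V0 a y) P ≠ 0) (t : Fin (s + 1) → Fin r → Fin d → VV n N) :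
    ∃ x : Fin (s + 1) → ℂ, x ≠ 0 ∧ ∀ p : ℂ → Fin N → Matrix (Fin n) (Fin n) ℂ, p 0 = y →
      (∀ τ l, p τ l ∈ SpS ℂ n) → ∀ Nd : (Fin r → Fin d → VV n N) → ℂ,
      (∀ t, HasDerivAt (fun τ => mn (Mo V0 a (p τ)) t) (Nd t) 0) →
      ∑ k, x k * (Nd (t k) * mn (Mo V0 a y) P - mn (Mo V0 a y) (t k) * Nd P) = 0 := by
  classical
  by_cases hz : ∃ k, mn (Mo V0 a y) (t k) = 0
  · -- a minor which is zero
    obtain ⟨k, hk⟩ := hz
    refine ⟨Pi.single k 1, fun h => one_ne_zero (α := ℂ) (by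
      have := congrFun h k
      rwa [Pi.single_eq_same] at this), fun p hp hps Nd hNd => ?_⟩
    have h1 : ∀ τ, mn (Mo V0 a (p τ)) (t k) = 0 := by
      intro τ
      have h2 := Bd_mnP hV0 ha (t k)
      rw [← eval_mnP]
      rcases Nat.eq_zero_or_pos (dexp s r E0 d) with h0 | h0
      · have h3 : r * d = 0 := by
          unfold dexp mexp at h0
          rcases Nat.mul_eq_zero.1 h0 with h | h
          · exfalso
            have : 0 < (s + 1) * (2 * (s + 1) * (2 * (r * E0)) + 1) ^ s := by positivity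
            omega
          · exact h
        exact hG K hK hKD _ (PK_coeff h2.1) (h2.2.trans (by rw [h3]; exact Nat.zero_le _))
          (by rw [eval_mnP]; exact hk) _ (hps τ)
      · refine hG K hK hKD _ (PK_coeff h2.1) (h2.2.trans (le_trans ?_ hδ)) (by rw [eval_mnP]; exact hk) _ (hps τ)
        unfold dexp mexp
        exact Nat.le_mul_of_pos_left _ (by positivity)
    have h2 : Nd (t k) = 0 := by
      have h3 := hNd (t k)
      simp only [h1] at h3
      exact h3.unique (hasDerivAt_const _ _)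
    rw [Finset.sum_eq_single k]
    · rw [h2, hk]
      simp
    · intro k' _ hk'
      rw [Pi.single_eq_of_ne hk', zero_mul]
    · intro h
      exact absurd (Finset.mem_univ _) h
  · push Not at hz
    set W : (Fin r → Fin d → VV n N) → Fin s → ℤ := fun t j => ∑ i, w (t i) j with hW
    have hWb : ∀ t j, |W t j| ≤ ((r * E0 : ℕ) : ℤ) := by
      intro t j
      refine (Finset.abs_sum_le_sum_abs _ _).trans ?_
      refine (Finset.sum_le_card_nsmul _ _ _ (fun i _ => hw (t i) j)).trans ?_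
      rw [Finset.card_univ, Fintype.card_fin, nsmul_eq_mul]
      push_cast
      exact le_rfl
    have hX : ∀ t, ∏ i, χ (t i) = ∏ j, θ j ^ W t j := by
      intro t
      rw [Finset.prod_congr rfl fun i _ => hχ (t i), Finset.prod_comm]
      refine Finset.prod_congr rfl fun j _ => ?_
      simp only [hW]
      exact zp_sum (hθ j) _ _
    set m := mexp s (2 * (r * E0)) with hm
    obtain ⟨α, β, hαβ, hex⟩ : ∃ α β : Fin (s + 1) → Fin (m + 1), α ≠ β ∧
        ∀ j, ∑ k, ((α k : ℕ) : ℤ) * (W (t k) j - W P j) = ∑ k, ((β k : ℕ) : ℤ) * (W (t k) j - W P j) :=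
      pigeon s (2 * (r * E0)) (fun k j => W (t k) j - W P j) (by
      intro k j
      have h1 := abs_sub (W (t k) j) (W P j)
      have h2 := hWb (t k) j
      have h3 := hWb P j
      push_cast at h2 h3 ⊢
      linarith)
    set A := (s + 1) * m with hA
    have hsum : ∀ α : Fin (s + 1) → Fin (m + 1), ∑ k, (α k : ℕ) ≤ A := by
      intro α
      refine (Finset.sum_le_card_nsmul _ _ m (fun k _ => Nat.lt_succ_iff.1 (α k).2)).trans ?_
      rw [Finset.card_univ, Fintype.card_fin, smul_eq_mul]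
    -- the values
    have hval : ∀ t, mn (Mo V0 a y) t = C.det * (mn B t * ∏ j, θ j ^ W t j) := fun t => by
      rw [mn_fac hM, hX]
    have hC : C.det ≠ 0 := by
      intro h
      rw [hval, h, zero_mul] at hP
      exact hP rfl
    have hBP : mn B P ≠ 0 := by
      intro h
      rw [hval, h, zero_mul, mul_zero] at hP
      exact hP rfl
    have hBt : ∀ k, mn B (t k) ≠ 0 := by
      intro k h
      have := hz k
      rw [hval, h, zero_mul, mul_zero] at this
      exact this rfl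
    set bb : (Fin (s + 1) → Fin (m + 1)) → ℂ := fun α => (∏ k, mn B (t k) ^ (α k : ℕ)) * mn B P ^ (A - ∑ k, (α k : ℕ)) with hbb
    have hbb0 : ∀ α, bb α ≠ 0 := fun α =>
      mul_ne_zero (Finset.prod_ne_zero_iff.2 fun k _ => pow_ne_zero _ (hBt k)) (pow_ne_zero _ hBP)
    have hbbK : ∀ α, bb α ∈ K := fun α =>
      K.mul_mem (K.prod_mem fun k _ => K.pow_mem (mn_mem hB _) _) (K.pow_mem (mn_mem hB _) _)
    have hmon : ∀ α : Fin (s + 1) → Fin (m + 1),
        (∏ k, mn (Mo V0 a y) (t k) ^ (α k : ℕ)) * mn (Mo V0 a y) P ^ (A - ∑ k, (α k : ℕ)) =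
          C.det ^ A * bb α * ∏ j, θ j ^ (∑ k, ((α k : ℕ) : ℤ) * (W (t k) j - W P j) + A * W P j) := by
      intro α
      have h1 : ∏ k, mn (Mo V0 a y) (t k) ^ (α k : ℕ) = C.det ^ (∑ k, (α k : ℕ)) *
          ((∏ k, mn B (t k) ^ (α k : ℕ)) * ∏ j, θ j ^ (∑ k, ((α k : ℕ) : ℤ) * W (t k) j)) := by
        rw [← Finset.prod_pow_eq_pow_sum]
        have h2 : ∏ j, θ j ^ (∑ k, ((α k : ℕ) : ℤ) * W (t k) j) = ∏ k, (∏ j, θ j ^ W (t k) j) ^ (α k : ℕ) := by
          have h3 : ∀ j, θ j ^ (∑ k, ((α k : ℕ) : ℤ) * W (t k) j) = ∏ k, (θ j ^ W (t k) j) ^ (α k : ℕ) := by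
            intro j
            rw [← zp_sum (hθ j)]
            refine Finset.prod_congr rfl fun k _ => ?_
            rw [mul_comm, _root_.zpow_mul, zpow_natCast]
          rw [Finset.prod_congr rfl fun j _ => h3 j, Finset.prod_comm]
          exact Finset.prod_congr rfl fun k _ => Finset.prod_pow _ _ _
        rw [h2, ← Finset.prod_mul_distrib, ← Finset.prod_mul_distrib]
        refine Finset.prod_congr rfl fun k _ => ?_
        rw [hval, mul_pow, mul_pow]
      have h4 : (∏ j, θ j ^ W P j) ^ (A - ∑ k, (α k : ℕ)) = ∏ j, θ j ^ ((A - ∑ k, ((α k : ℕ) : ℤ)) * W P j) := by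
        rw [← Finset.prod_pow]
        refine Finset.prod_congr rfl fun j _ => ?_
        rw [mul_comm, _root_.zpow_mul, ← zpow_natCast (θ j ^ W P j)]
        congr 1
        rw [Nat.cast_sub (hsum α)]
        push_cast
        rfl
      rw [h1, hval P, mul_pow, mul_pow, h4]
      have h5 : C.det ^ A = C.det ^ (∑ k, (α k : ℕ)) * C.det ^ (A - ∑ k, (α k : ℕ)) := by
        rw [← pow_add, Nat.add_sub_cancel' (hsum α)]
      have h6 : ∏ j, θ j ^ (∑ k, ((α k : ℕ) : ℤ) * (W (t k) j - W P j) + A * W P j) =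
          (∏ j, θ j ^ (∑ k, ((α k : ℕ) : ℤ) * W (t k) j)) * ∏ j, θ j ^ ((A - ∑ k, ((α k : ℕ) : ℤ)) * W P j) := by
        rw [← Finset.prod_mul_distrib]
        refine Finset.prod_congr rfl fun j _ => ?_
        rw [← zpow_add₀ (hθ j)]
        congr 1
        simp only [mul_sub, Finset.sum_sub_distrib]
        rw [← Finset.sum_mul]
        ring
      rw [h5, h6, hbb]
      ring
    have hmon' : bb β * ((∏ k, mn (Mo V0 a y) (t k) ^ (α k : ℕ)) * mn (Mo V0 a y) P ^ (A - ∑ k, (α k : ℕ))) =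
        bb α * ((∏ k, mn (Mo V0 a y) (t k) ^ (β k : ℕ)) * mn (Mo V0 a y) P ^ (A - ∑ k, (β k : ℕ))) := by
      rw [hmon, hmon]
      have h1 : ∏ j, θ j ^ (∑ k, ((α k : ℕ) : ℤ) * (W (t k) j - W P j) + A * W P j) =
          ∏ j, θ j ^ (∑ k, ((β k : ℕ) : ℤ) * (W (t k) j - W P j) + A * W P j) :=
        Finset.prod_congr rfl fun j _ => by rw [hex j]
      rw [h1]
      ring
    -- the polynomial relation
    set R : MvPolynomial (VV n N) ℂ :=
      MvPolynomial.C (bb β) * ((∏ k, mnP V0 a (t k) ^ (α k : ℕ)) * mnP V0 a P ^ (A - ∑ k, (α k : ℕ))) -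
      MvPolynomial.C (bb α) * ((∏ k, mnP V0 a (t k) ^ (β k : ℕ)) * mnP V0 a P ^ (A - ∑ k, (β k : ℕ))) with hR
    have hRe : ∀ Y, MvPolynomial.eval (cd Y) R =
        bb β * ((∏ k, mn (Mo V0 a Y) (t k) ^ (α k : ℕ)) * mn (Mo V0 a Y) P ^ (A - ∑ k, (α k : ℕ))) -
        bb α * ((∏ k, mn (Mo V0 a Y) (t k) ^ (β k : ℕ)) * mn (Mo V0 a Y) P ^ (A - ∑ k, (β k : ℕ))) := by
      intro Y
      rw [hR]
      simp only [map_sub, map_mul, map_prod, map_pow, MvPolynomial.eval_C, eval_mnP]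
    have hbd : ∀ (c : ℂ) (_ : c ∈ K) (α : Fin (s + 1) → Fin (m + 1)), Bd K (A * (r * d))
        (MvPolynomial.C c * ((∏ k, mnP V0 a (t k) ^ (α k : ℕ)) * mnP V0 a P ^ (A - ∑ k, (α k : ℕ)))) := by
      intro c hc α
      have h1 := Bd.prod Finset.univ (e := fun k => (α k : ℕ) * (r * d)) (P := fun k => mnP V0 a (t k) ^ (α k : ℕ))
        (fun k _ => (Bd_mnP hV0 ha (t k)).pow _)
      have h2 := (Bd_mnP hV0 ha P).pow (A - ∑ k, (α k : ℕ))
      have h3 := (Bd.C (σ := VV n N) hc).mul (h1.mul h2)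
      refine h3.mono ?_
      rw [zero_add, ← Finset.sum_mul, ← add_mul]
      exact Nat.mul_le_mul_right _ (le_of_eq (Nat.add_sub_cancel' (hsum α)))
    have hRbd : Bd K (A * (r * d)) R := (hbd _ (hbbK β) α).sub (hbd _ (hbbK α) β)
    have hRall := hG K hK hKD R (PK_coeff hRbd.1) (hRbd.2.trans hδ) (by rw [hRe, hmon', sub_self])
    refine ⟨fun k => (((α k : ℕ) : ℂ) - ((β k : ℕ) : ℂ)) / mn (Mo V0 a y) (t k), ?_, ?_⟩
    · intro h
      apply hαβ
      funext k
      have h1 := congrFun h k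
      simp only [Pi.zero_apply] at h1
      rcases div_eq_zero_iff.1 h1 with h2 | h2
      · have h3 : ((α k : ℕ) : ℂ) = ((β k : ℕ) : ℂ) := sub_eq_zero.1 h2
        exact Fin.ext (by exact_mod_cast h3)
      · exact absurd h2 (hz k)
    · intro p hp hps Nd hNd
      have hp0 : ∀ t, mn (Mo V0 a (p 0)) t = mn (Mo V0 a y) t := fun t => by rw [hp]
      have hd1 := deriv_mon (f := fun k τ => mn (Mo V0 a (p τ)) (t k)) (f' := fun k => Nd (t k))
        (g := fun τ => mn (Mo V0 a (p τ)) P) (g' := Nd P) (fun k => hNd (t k))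
        (fun k => by rw [hp0]; exact hz k) (hNd P) (by rw [hp0]; exact hP) (fun k => (α k : ℕ)) (A - ∑ k, (α k : ℕ)) (bb β)
      have hd2 := deriv_mon (f := fun k τ => mn (Mo V0 a (p τ)) (t k)) (f' := fun k => Nd (t k))
        (g := fun τ => mn (Mo V0 a (p τ)) P) (g' := Nd P) (fun k => hNd (t k))
        (fun k => by rw [hp0]; exact hz k) (hNd P) (by rw [hp0]; exact hP) (fun k => (β k : ℕ)) (A - ∑ k, (β k : ℕ)) (bb α)
      have heq : (fun τ => bb β * ((∏ k, mn (Mo V0 a (p τ)) (t k) ^ (α k : ℕ)) * mn (Mo V0 a (p τ)) P ^ (A - ∑ k, (α k : ℕ)))) =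
          fun τ => bb α * ((∏ k, mn (Mo V0 a (p τ)) (t k) ^ (β k : ℕ)) * mn (Mo V0 a (p τ)) P ^ (A - ∑ k, (β k : ℕ))) := by
        funext τ
        have h1 := hRall (p τ) (hps τ)
        rw [hRe, sub_eq_zero] at h1
        exact h1
      rw [heq] at hd1
      have h1 := hd1.unique hd2
      simp only [hp0] at h1
      rw [hmon'] at h1
      have hne : bb α * ((∏ k, mn (Mo V0 a y) (t k) ^ (β k : ℕ)) * mn (Mo V0 a y) P ^ (A - ∑ k, (β k : ℕ))) ≠ 0 :=
        mul_ne_zero (hbb0 α) (mul_ne_zero (Finset.prod_ne_zero_iff.2 fun k _ => pow_ne_zero _ (hz k)) (pow_ne_zero _ hP))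
      have h2 := mul_left_cancel₀ hne h1
      rw [Nat.cast_sub (hsum α), Nat.cast_sub (hsum β)] at h2
      push_cast at h2
      have h3 : ∀ k, ((((α k : ℕ) : ℂ) - ((β k : ℕ) : ℂ)) / mn (Mo V0 a y) (t k)) *
          (Nd (t k) * mn (Mo V0 a y) P - mn (Mo V0 a y) (t k) * Nd P) =
          mn (Mo V0 a y) P * (((α k : ℕ) : ℂ) * (Nd (t k) / mn (Mo V0 a y) (t k)) -
            ((β k : ℕ) : ℂ) * (Nd (t k) / mn (Mo V0 a y) (t k))) - Nd P * (((α k : ℕ) : ℂ) - ((β k : ℕ) : ℂ)) := by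
        intro k
        have := hz k
        field_simp
      rw [Finset.sum_congr rfl fun k _ => h3 k, Finset.sum_sub_distrib, ← Finset.mul_sum, ← Finset.mul_sum,
        Finset.sum_sub_distrib, Finset.sum_sub_distrib]
      have h4 : Nd P = mn (Mo V0 a y) P * (Nd P / mn (Mo V0 a y) P) := by
        field_simp
      rw [h4]
      linear_combination (mn (Mo V0 a y) P) * h2

end Pool.Agent.T44.EF
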