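import Mathlib

/-!
# Tensor powers of a matrix acting on coefficients of homogeneous polynomials
-/

set_option autoImplicit false
set_option linter.unusedSectionVars false

open Matrix

namespace Pool.Agent.T44.EF

variable {V : Type} [Fintype V] [DecidableEq V] {d : ℕ}

/-- multilinear evaluation -/
def Fm (a : (Fin d → V) → ℂ) (z : Fin d → V → ℂ) : ℂ := ∑ I, a I * ∏ t, z t (I t)

theorem Fm_single (a : (Fin d → V) → ℂ) (I0 : Fin d → V) : Fm a (fun t => Pi.single (I0 t) 1) = a I0 := by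
  unfold Fm
  rw [Finset.sum_eq_single I0]
  · simp
  · intro I _ hI
    obtain ⟨t, ht⟩ : ∃ t, I t ≠ I0 t := by
      by_contra hcon
      push Not at hcon
      exact hI (funext hcon)
    rw [Finset.prod_eq_zero (Finset.mem_univ t), mul_zero]
    show (Pi.single (I0 t) (1 : ℂ) : V → ℂ) (I t) = 0
    rw [Pi.single_apply, if_neg ht]
  · intro h
    exact absurd (Finset.mem_univ _) h

theorem Fm_ext {a a' : (Fin d → V) → ℂ} (h : ∀ z, Fm a z = Fm a' z) : a = a' := by
  funext I
  rw [← Fm_single a, ← Fm_single a', h]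

/-- a matrix in each factor -/
def rhf (A : Fin d → Matrix V V ℂ) : ((Fin d → V) → ℂ) →ₗ[ℂ] ((Fin d → V) → ℂ) where
  toFun a := fun I => Fm a (fun t => A t (I t))
  map_add' a b := by
    funext I
    simp only [Fm, Pi.add_apply, add_mul, Finset.sum_add_distrib]
  map_smul' c a := by
    funext I
    simp only [Fm, Pi.smul_apply, smul_eq_mul, mul_assoc, Finset.mul_sum, RingHom.id_apply]

theorem rhf_apply (A : Fin d → Matrix V V ℂ) (a : (Fin d → V) → ℂ) (I : Fin d → V) :
    rhf A a I = ∑ J, a J * ∏ t, A t (I t) (J t) := rfl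

theorem Fm_rhf (A : Fin d → Matrix V V ℂ) (a : (Fin d → V) → ℂ) (z : Fin d → V → ℂ) :
    Fm (rhf A a) z = Fm a (fun t => z t ᵥ* A t) := by
  unfold Fm
  have h1 : ∀ J : Fin d → V, ∏ t, (z t ᵥ* A t) (J t) = ∑ I : Fin d → V, (∏ t, z t (I t)) * ∏ t, A t (I t) (J t) := by
    intro J
    simp only [Matrix.vecMul, dotProduct]
    rw [Finset.prod_univ_sum, Fintype.piFinset_univ]
    exact Finset.sum_congr rfl fun I _ => Finset.prod_mul_distrib
  simp only [h1, rhf_apply, Finset.sum_mul, Finset.mul_sum]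
  rw [Finset.sum_comm]
  refine Finset.sum_congr rfl fun J _ => Finset.sum_congr rfl fun I _ => ?_
  ring

theorem rhf_mul (A B : Fin d → Matrix V V ℂ) : rhf A * rhf B = rhf (A * B) := by
  refine LinearMap.ext fun a => Fm_ext fun z => ?_
  rw [Module.End.mul_apply, Fm_rhf, Fm_rhf, Fm_rhf]
  congr 1
  funext t
  rw [vecMul_vecMul]
  rfl

theorem rhf_one : rhf (1 : Fin d → Matrix V V ℂ) = 1 := by
  refine LinearMap.ext fun a => Fm_ext fun z => ?_
  rw [Fm_rhf]
  congr 1
  funext t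
  rw [Pi.one_apply, vecMul_one]

/-- the same matrix in each factor -/
def rh (A : Matrix V V ℂ) : ((Fin d → V) → ℂ) →ₗ[ℂ] ((Fin d → V) → ℂ) := rhf (fun _ => A)

theorem rh_apply (A : Matrix V V ℂ) (a : (Fin d → V) → ℂ) (I : Fin d → V) :
    rh A a I = ∑ J, a J * ∏ t, A (I t) (J t) := rfl

theorem rh_mul (A B : Matrix V V ℂ) : rh (d := d) A * rh B = rh (A * B) := rhf_mul _ _

theorem rh_one : rh (d := d) (1 : Matrix V V ℂ) = 1 := rhf_one

theorem rh_smul (c : ℂ) (A : Matrix V V ℂ) : rh (d := d) (c • A) = c ^ d • rh A := by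
  refine LinearMap.ext fun a => funext fun I => ?_
  rw [rh_apply, LinearMap.smul_apply, Pi.smul_apply, rh_apply, smul_eq_mul, Finset.mul_sum]
  refine Finset.sum_congr rfl fun J _ => ?_
  simp only [Matrix.smul_apply, smul_eq_mul, Finset.prod_mul_distrib, Finset.prod_const, Finset.card_univ,
    Fintype.card_fin]
  ring

/-- one factor -/
noncomputable def Dt (t : Fin d) (A : Matrix V V ℂ) : ((Fin d → V) → ℂ) →ₗ[ℂ] ((Fin d → V) → ℂ) :=
  rhf (Pi.mulSingle t A)

theorem prod_ms (t : Fin d) (A : Matrix V V ℂ) (I J : Fin d → V) :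
    ∏ u, (Pi.mulSingle t A : Fin d → Matrix V V ℂ) u (I u) (J u) =
      (∏ u ∈ Finset.univ.erase t, (1 : Matrix V V ℂ) (I u) (J u)) * A (I t) (J t) := by
  rw [← Finset.prod_erase_mul _ _ (Finset.mem_univ t), Pi.mulSingle_eq_same]
  congr 1
  refine Finset.prod_congr rfl fun u hu => ?_
  rw [Pi.mulSingle_eq_of_ne (Finset.ne_of_mem_erase hu)]

theorem Dt_apply (t : Fin d) (A : Matrix V V ℂ) (a : (Fin d → V) → ℂ) (I : Fin d → V) :
    Dt t A a I = ∑ J, a J * ((∏ u ∈ Finset.univ.erase t, (1 : Matrix V V ℂ) (I u) (J u)) * A (I t) (J t)) := by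
  unfold Dt
  rw [rhf_apply]
  exact Finset.sum_congr rfl fun J _ => by rw [prod_ms]

theorem Dt_mul (t : Fin d) (A B : Matrix V V ℂ) : Dt t A * Dt t B = Dt t (A * B) := by
  unfold Dt
  rw [rhf_mul, Pi.mulSingle_mul]

theorem Dt_one (t : Fin d) : Dt t (1 : Matrix V V ℂ) = 1 := by
  unfold Dt
  rw [Pi.mulSingle_one, rhf_one]

theorem Dt_comm {t u : Fin d} (h : t ≠ u) (A B : Matrix V V ℂ) : Commute (Dt t A) (Dt u B) := by
  unfold Dt Commute SemiconjBy
  rw [rhf_mul, rhf_mul]
  congr 1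
  exact Pi.mulSingle_commute (f := fun _ : Fin d => Matrix V V ℂ) h A B

theorem Dt_add (t : Fin d) (A B : Matrix V V ℂ) : Dt t (A + B) = Dt t A + Dt t B := by
  refine LinearMap.ext fun a => funext fun I => ?_
  rw [LinearMap.add_apply, Pi.add_apply, Dt_apply, Dt_apply, Dt_apply, ← Finset.sum_add_distrib]
  refine Finset.sum_congr rfl fun J _ => ?_
  rw [Matrix.add_apply]
  ring

theorem Dt_smul (t : Fin d) (c : ℂ) (A : Matrix V V ℂ) : Dt t (c • A) = c • Dt t A := by
  refine LinearMap.ext fun a => funext fun I => ?_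
  rw [LinearMap.smul_apply, Pi.smul_apply, Dt_apply, Dt_apply, smul_eq_mul, Finset.mul_sum]
  refine Finset.sum_congr rfl fun J _ => ?_
  rw [Matrix.smul_apply, smul_eq_mul]
  ring

/-- the derivative of the action -/
noncomputable def Lt : Matrix V V ℂ →ₗ[ℂ] (((Fin d → V) → ℂ) →ₗ[ℂ] ((Fin d → V) → ℂ)) where
  toFun A := ∑ t, Dt t A
  map_add' A B := by simp only [Dt_add, Finset.sum_add_distrib]
  map_smul' c A := by simp only [Dt_smul, Finset.smul_sum, RingHom.id_apply]

theorem Lt_eq (A : Matrix V V ℂ) : Lt (d := d) A = ∑ t, Dt t A := rfl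

theorem Lt_bracket (A B : Matrix V V ℂ) : Lt (d := d) A * Lt B - Lt B * Lt A = Lt (A * B - B * A) := by
  have h1 : ∀ A B : Matrix V V ℂ, Lt (d := d) A * Lt B =
      ∑ t, Dt t (A * B) + ∑ t, ∑ u ∈ Finset.univ.erase t, Dt t A * Dt u B := by
    intro A B
    rw [Lt_eq, Lt_eq, Finset.sum_mul_sum, ← Finset.sum_add_distrib]
    refine Finset.sum_congr rfl fun t _ => ?_
    rw [← Finset.add_sum_erase _ _ (Finset.mem_univ t), Dt_mul]
  have h2 : ∑ t, ∑ u ∈ Finset.univ.erase t, Dt (d := d) t A * Dt u B =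
      ∑ t, ∑ u ∈ Finset.univ.erase t, Dt (d := d) t B * Dt u A := by
    rw [Finset.sum_comm' (t' := Finset.univ) (s' := fun u => Finset.univ.erase u) (by
      intro x y
      simp [eq_comm])]
    refine Finset.sum_congr rfl fun u _ => Finset.sum_congr rfl fun t ht => ?_
    exact (Dt_comm (Finset.ne_of_mem_erase ht) A B)
  rw [h1, h1, h2, map_sub, Lt_eq, Lt_eq]
  abel

/-- the exponential -/
theorem rhf_exp {E : Matrix V V ℂ} (hE : E * E = 0) (s : Finset (Fin d)) :
    IsNilpotent (∑ t ∈ s, Dt t E) ∧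
      rhf (fun t => if t ∈ s then 1 + E else 1) = IsNilpotent.exp (∑ t ∈ s, Dt t E) := by
  classical
  have hD0 : ∀ t : Fin d, Dt t E ^ 2 = 0 := by
    intro t
    rw [pow_two, Dt_mul, hE]
    have := Dt_smul t 0 (0 : Matrix V V ℂ)
    rwa [zero_smul, zero_smul] at this
  induction s using Finset.induction_on with
  | empty =>
    refine ⟨by rw [Finset.sum_empty]; exact IsNilpotent.zero, ?_⟩
    rw [Finset.sum_empty, IsNilpotent.exp_zero]
    simp only [Finset.notMem_empty, if_false]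
    exact rhf_one
  | insert u s hu ih =>
    obtain ⟨h1, h2⟩ := ih
    have hc : Commute (Dt u E) (∑ t ∈ s, Dt t E) := by
      refine Commute.sum_right _ _ _ fun t ht => Dt_comm ?_ E E
      rintro rfl
      exact hu ht
    have hn : IsNilpotent (Dt u E) := ⟨2, hD0 u⟩
    refine ⟨?_, ?_⟩
    · rw [Finset.sum_insert hu]
      exact hc.isNilpotent_add hn h1
    · rw [Finset.sum_insert hu, IsNilpotent.exp_add_of_commute hc hn h1, ← h2]
      have h3 : IsNilpotent.exp (Dt u E) = Dt u (1 + E) := by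
        rw [IsNilpotent.exp_eq_sum (hD0 u), Finset.sum_range_succ, Finset.sum_range_one, Dt_add, Dt_one]
        simp
      rw [h3]
      unfold Dt
      rw [rhf_mul]
      congr 1
      funext t
      rw [Pi.mul_apply]
      by_cases h : t = u
      · subst h
        rw [Pi.mulSingle_eq_same, if_pos (Finset.mem_insert_self _ _), if_neg hu, mul_one]
      · rw [Pi.mulSingle_eq_of_ne h, one_mul]
        simp [Finset.mem_insert, h]

/-- stability under the exponential -/
theorem rh_stab {E : Matrix V V ℂ} (hE : E * E = 0) (S : Submodule ℂ ((Fin d → V) → ℂ))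
    (hS : ∀ a ∈ S, Lt E a ∈ S) : ∀ a ∈ S, rh (1 + E) a ∈ S := by
  intro a ha
  obtain ⟨h1, h2⟩ := rhf_exp (d := d) hE Finset.univ
  have h3 : rh (d := d) (1 + E) = IsNilpotent.exp (Lt E) := by
    rw [Lt_eq, ← h2]
    simp [rh]
  obtain ⟨k, hk⟩ := h1
  rw [← Lt_eq] at hk
  rw [h3, IsNilpotent.exp_eq_sum hk, LinearMap.sum_apply]
  refine Submodule.sum_mem _ fun i _ => ?_
  rw [LinearMap.smul_apply]
  refine S.smul_of_tower_mem _ ?_
  clear hk
  rename_i hi
  clear hi
  induction i with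
  | zero => simpa using ha
  | succ i ih =>
    rw [pow_succ', Module.End.mul_apply]
    exact hS _ ih

/-- the derivative -/
theorem rh_deriv (E : Matrix V V ℂ) (a : (Fin d → V) → ℂ) (I : Fin d → V) :
    HasDerivAt (fun τ : ℂ => rh (1 + τ • E) a I) (Lt E a I) 0 := by
  simp only [rh_apply]
  have h1 : Lt E a I = ∑ J, a J * ∑ t, ((∏ u ∈ Finset.univ.erase t, (1 : Matrix V V ℂ) (I u) (J u)) * E (I t) (J t)) := by
    rw [Lt_eq, LinearMap.sum_apply, Finset.sum_apply]
    simp only [Dt_apply, Finset.mul_sum]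
    exact Finset.sum_comm
  rw [h1]
  refine HasDerivAt.fun_sum fun J _ => HasDerivAt.const_mul _ ?_
  have h2 : ∀ t ∈ (Finset.univ : Finset (Fin d)),
      HasDerivAt (fun τ : ℂ => (1 + τ • E) (I t) (J t)) (E (I t) (J t)) 0 := by
    intro t _
    simp only [Matrix.add_apply, Matrix.smul_apply, smul_eq_mul]
    have h3 : HasDerivAt (fun τ : ℂ => τ * E (I t) (J t)) (1 * E (I t) (J t)) 0 := (hasDerivAt_id (0 : ℂ)).mul_const _
    rw [one_mul] at h3
    exact h3.const_add _
  have h4 := HasDerivAt.fun_finsetProd h2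
  simpa using h4

end Pool.Agent.T44.EF
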