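import Pool.Agent.T44.EF.Tra

/-!
# Homogeneous relations on a subtorsor hold on its symplectic translates: the theorem
-/

set_option autoImplicit false
set_option linter.unusedSectionVars false

open Matrix

namespace Pool.Agent.T44.EF

open Pool.Agent.Y118.HP Pool.Agent.Y123.ST Pool.Agent.TH119.DR Pool.Agent.TH119.MX Pool.Agent.TH127.PT

variable {n N d s : ℕ}

theorem inv_mem {K : Subfield ℂ} {U : Matrix (Fin n) (Fin n) ℂ} (hU : ∀ i j, U i j ∈ K) (hd : IsUnit U.det) (i j : Fin n) :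
    U⁻¹ i j ∈ K := by
  set U0 : Matrix (Fin n) (Fin n) K := Matrix.of fun i j => ⟨U i j, hU i j⟩ with hU0
  have h1 : U0.map (algebraMap K ℂ) = U := by
    ext i j
    rfl
  have h2 : algebraMap K ℂ U0.det = U.det := by
    rw [← h1, RingHom.map_det]
    rfl
  have h3 : IsUnit U0.det := by
    rw [isUnit_iff_ne_zero]
    intro h
    rw [h, map_zero] at h2
    rw [← h2] at hd
    exact not_isUnit_zero hd
  have h4 : U⁻¹ = U0⁻¹.map (algebraMap K ℂ) := by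
    apply inv_eq_right_inv
    have h5 := congrArg (fun M => M.map (algebraMap K ℂ)) (mul_nonsing_inv U0 h3)
    simp only [Matrix.map_mul] at h5
    rw [h1] at h5
    rw [h5]
    exact Matrix.map_one _ (map_zero _) (map_one _)
  rw [h4]
  exact (U0⁻¹ i j).2

theorem dexp_mono {r r' E0 d' : ℕ} (h : r ≤ r') : dexp s r E0 d' ≤ dexp s r' E0 d' := by
  unfold dexp mexp
  gcongr

/-- conjugates of symplectic matrices by similitudes -/
theorem sp_conj' (hn : Even n) {P h : Matrix (Fin n) (Fin n) ℂ} {μ : ℂ} (hμ : μ ≠ 0) (hP : P * jm ℂ n * Pᵀ = μ • jm ℂ n)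
    (hh : h ∈ SpS ℂ n) : P⁻¹ * h * P ∈ SpS ℂ n := by
  have h1 := (tor_det hn hμ hP).1
  have h2 : P⁻¹ * P = 1 := nonsing_inv_mul _ h1
  have h3 : Pᵀ * (P⁻¹)ᵀ = 1 := by rw [← transpose_mul, h2, transpose_one]
  have h4 : h * jm ℂ n * hᵀ = jm ℂ n := hh
  have h5 : P⁻¹ * jm ℂ n * (P⁻¹)ᵀ = μ⁻¹ • jm ℂ n := by
    have h7 : jm ℂ n = μ⁻¹ • (P * jm ℂ n * Pᵀ) := by
      rw [hP, smul_smul, inv_mul_cancel₀ hμ, one_smul]
    calc P⁻¹ * jm ℂ n * (P⁻¹)ᵀ = P⁻¹ * (μ⁻¹ • (P * jm ℂ n * Pᵀ)) * (P⁻¹)ᵀ := by rw [← h7]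
      _ = μ⁻¹ • ((P⁻¹ * P) * jm ℂ n * (Pᵀ * (P⁻¹)ᵀ)) := by
        rw [Matrix.mul_smul, Matrix.smul_mul]
        simp only [Matrix.mul_assoc]
      _ = μ⁻¹ • jm ℂ n := by rw [h2, h3, Matrix.one_mul, Matrix.mul_one]
  show P⁻¹ * h * P * jm ℂ n * (P⁻¹ * h * P)ᵀ = jm ℂ n
  calc P⁻¹ * h * P * jm ℂ n * (P⁻¹ * h * P)ᵀ = P⁻¹ * h * (P * jm ℂ n * Pᵀ) * hᵀ * (P⁻¹)ᵀ := by
        rw [transpose_mul, transpose_mul]
        simp only [Matrix.mul_assoc]
    _ = μ • (P⁻¹ * (h * jm ℂ n * hᵀ) * (P⁻¹)ᵀ) := by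
        rw [hP, Matrix.mul_smul, Matrix.smul_mul, Matrix.smul_mul]
        simp only [Matrix.mul_assoc]
    _ = jm ℂ n := by rw [h4, h5, smul_smul, mul_inv_cancel₀ hμ, one_smul]

variable {T : Set (Matrix (Fin n × Fin N) (Fin n × Fin N) ℂ)}

/-- **Homogeneous relations transfer** -/
theorem transferH (hn : Even n)
    (hcod : ∀ H : Submodule ℂ (Matrix (Fin n) (Fin n) ℂ), (∀ X ∈ H, ∀ Y ∈ H, X * Y - Y * X ∈ H) →
      (∀ v : Fin (s + 1) → (Fin n → ℂ), ¬ LinearIndependent ℂ (fun i => H.mkQ (EE (v i)))) → ∀ v : Fin n → ℂ, EE v ∈ H)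
    {K K' : Subfield ℂ} (hKK' : K ≤ K') (hK' : FiniteDimensional ℚ K') {D δ : ℕ} (hKD : Module.finrank ℚ K' ≤ D)
    {U V0 x : Matrix (Fin n) (Fin n) ℂ} (hU : ∀ i j, U i j ∈ K') (hV : ∀ i j, V0 i j ∈ K') (hUd : IsUnit U.det)
    (hVd : IsUnit V0.det) {lam : ℂ} (hlam : lam ≠ 0) {θ : Fin s → ℂ} (hθ : ∀ j, θ j ≠ 0) {e : Fin n → Fin s → ℤ} {E1 : ℕ}
    (he : ∀ k j, |e k j| ≤ E1) (hx : x = lam • (U * diagonal (fun k => ∏ j, θ j ^ e k j) * V0)) {μ : ℂ} (hμ : μ ≠ 0)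
    (hxJ : x * jm ℂ n * xᵀ = μ • jm ℂ n) {y W c : Fin N → Matrix (Fin n) (Fin n) ℂ} (hy : ∀ l, y l ∈ SpS ℂ n)
    (hG : Gen y δ D) (hW : ∀ l i j, W l i j ∈ K) (hWd : ∀ l, IsUnit (W l).det) (hc : ∀ l, c l = x * y l * W l)
    (hT : IsSubtorsor K T) (hTdet : ∀ X : Fin N → Matrix (Fin n) (Fin n) ℂ, bd X ∈ T → ∀ j, IsUnit (X j).det)
    (htor : ∀ X Y Z : Fin N → Matrix (Fin n) (Fin n) ℂ, bd X ∈ T → bd Y ∈ T → bd Z ∈ T →
      bd (fun j => X j * (Y j)⁻¹ * Z j) ∈ T) (hcT : bd c ∈ T)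
    (hδ : dexp s (Fintype.card (Fin d → VV n N)) (d * E1) d ≤ δ) :
    ∀ a ∈ ST T d, ∀ h : Fin N → Matrix (Fin n) (Fin n) ℂ, (∀ l, h l ∈ SpS ℂ n) → Fx a (fun l => h l * c l) = 0 := by
  classical
  set r := Module.finrank ℂ (ST T d) with hr
  have hrle : r ≤ Fintype.card (Fin d → VV n N) := by
    rw [hr, ← Module.finrank_fintype_fun_eq_card ℂ (η := Fin d → VV n N)]
    exact Submodule.finrank_le _
  obtain ⟨b, hbK, hbli, hbspan⟩ := exists_Kbasis (ST_def hT d) hr.symm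
  have hcd := hTdet c hcT
  have hcc : (fun l => (c l)⁻¹) * c = 1 := by
    funext l
    exact nonsing_inv_mul _ (hcd l)
  have hcc' : c * (fun l => (c l)⁻¹) = 1 := by
    funext l
    exact mul_nonsing_inv _ (hcd l)
  have hinjc : Function.Injective (rh (d := d) (Gb c)) := rh_inj (A' := Gb (fun l => (c l)⁻¹)) (by rw [Gb_mul, hcc, Gb_one])
  have hSG : (ST T d).map (rh (Gb c)) = SG T d := by
    apply le_antisymm
    · rintro _ ⟨a, ha, rfl⟩ X Y hX hY
      rw [Fx_rh]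
      exact ha _ (htor X Y c hX hY hcT)
    · intro a ha
      refine ⟨rh (Gb (fun l => (c l)⁻¹)) a, ?_, ?_⟩
      · intro X hX
        rw [Fx_rh]
        exact ha X c hX hcT
      · rw [← Module.End.mul_apply, rh_mul, Gb_mul, hcc', Gb_one, rh_one]
        rfl
  have hfin : Module.finrank ℂ (SG T d) = r := by
    rw [← hSG]
    exact (LinearEquiv.finrank_eq (Submodule.equivMapOfInjective _ hinjc (ST T d))).symm
  obtain ⟨b', hb'K, hb'li, hb'span⟩ := exists_Kbasis (SG_def hT hTdet d) hfin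
  -- coefficients
  have hC0 : ∀ i, ∃ C0 : Fin r → ℂ, ∑ k, C0 k • b' k = rh (Gb c) (b i) := by
    intro i
    have h1 : rh (Gb c) (b i) ∈ SG T d := by
      rw [← hSG]
      refine ⟨b i, ?_, rfl⟩
      have : b i ∈ Submodule.span ℂ (Set.range b) := Submodule.subset_span ⟨i, rfl⟩
      rwa [hbspan] at this
    rw [← hb'span] at h1
    exact (Submodule.mem_span_range_iff_exists_fun ℂ).1 h1
  choose C0 hC0 using hC0
  set a : Fin r → (Fin d → VV n N) → ℂ := fun i => rh (Gb W) (b i) with ha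
  have hWW : (fun l => (W l)⁻¹) * W = 1 := by
    funext l
    exact nonsing_inv_mul _ (hWd l)
  have hWW' : ∀ l, W l * (W l)⁻¹ = 1 := fun l => mul_nonsing_inv _ (hWd l)
  have hinjW : Function.Injective (rh (d := d) (Gb W)) := rh_inj (A' := Gb (fun l => (W l)⁻¹)) (by rw [Gb_mul, hWW, Gb_one])
  have haK : ∀ i J, a i J ∈ K' := fun i J => hKK' (rh_mem (Gb_mem hW) (hbK i) J)
  have hali : LinearIndependent ℂ a := hbli.map' (rh (Gb W)) (LinearMap.ker_eq_bot.2 hinjW)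
  have hVy : ∀ l, IsUnit (V0 * y l).det := fun l => by
    rw [det_mul]
    exact hVd.mul (sp_det hn (hy l))
  have hinjV : Function.Injective (rh (d := d) (Gb (fun k => V0 * y k))) :=
    rh_inj (A' := Gb (fun k => (V0 * y k)⁻¹)) (by
      rw [Gb_mul]
      have : (fun k => (V0 * y k)⁻¹) * (fun k => V0 * y k) = (1 : Fin N → Matrix (Fin n) (Fin n) ℂ) := by
        funext l
        exact nonsing_inv_mul _ (hVy l)
      rw [this, Gb_one])
  set B : Matrix (Fin r) (Fin d → VV n N) ℂ := Matrix.of fun k q => rh (Gb (fun _ => U⁻¹)) (b' k) q with hB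
  have hBK : ∀ i q, B i q ∈ K' := fun i q => rh_mem (Gb_mem fun _ i j => inv_mem hU hUd i j) (fun q => hKK' (hb'K i q)) q
  set dl' : Fin n → ℂ := fun k => ∏ j, θ j ^ (-e k j) with hdl
  have hdd : diagonal dl' * diagonal (fun k => ∏ j, θ j ^ e k j) = (1 : Matrix (Fin n) (Fin n) ℂ) := by
    rw [diagonal_mul_diagonal, ← diagonal_one]
    congr 1
    funext k
    rw [hdl]
    simp only
    rw [← Finset.prod_mul_distrib]
    refine Finset.prod_eq_one fun j _ => ?_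
    rw [← zpow_add₀ (hθ j), neg_add_cancel, zpow_zero]
  have hUU : U⁻¹ * U = 1 := nonsing_inv_mul _ hUd
  have hkey : ∀ l, V0 * y l * W l = lam⁻¹ • (diagonal dl' * (U⁻¹ * c l)) := by
    intro l
    rw [hc l, hx, Matrix.smul_mul, Matrix.smul_mul, Matrix.mul_smul, Matrix.mul_smul, smul_smul, inv_mul_cancel₀ hlam,
      one_smul]
    calc V0 * y l * W l = (diagonal dl' * diagonal (fun k => ∏ j, θ j ^ e k j)) * (V0 * y l * W l) := by
          rw [hdd, Matrix.one_mul]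
      _ = diagonal dl' * ((U⁻¹ * U) * (diagonal (fun k => ∏ j, θ j ^ e k j) * (V0 * y l * W l))) := by
          rw [hUU, Matrix.one_mul, Matrix.mul_assoc]
      _ = _ := by simp only [Matrix.mul_assoc]
  have hM : ∀ i q, Mo V0 a y i q = ∑ k, ((lam⁻¹) ^ d * C0 i k) * B k q * (∏ t, dl' (q t).2.2) := by
    intro i q
    have h1 : Mo V0 a y i q = rh (Gb (fun l => V0 * y l * W l)) (b i) q := by
      unfold Mo
      rw [Matrix.of_apply, ha]
      simp only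
      rw [← Module.End.mul_apply, rh_mul, Gb_mul]
      rfl
    have h2 : Gb (fun l => V0 * y l * W l) = lam⁻¹ • (Gb (fun _ => diagonal dl') * (Gb (fun _ => U⁻¹) * Gb c)) := by
      rw [Gb_mul, Gb_mul, ← Gb_smul]
      congr 1
      funext l
      exact hkey l
    rw [h1, h2, rh_smul, LinearMap.smul_apply, Pi.smul_apply, smul_eq_mul, ← rh_mul, Module.End.mul_apply, rh_diag,
      ← rh_mul, Module.End.mul_apply, ← hC0 i, map_sum, Finset.sum_apply, Finset.mul_sum, Finset.mul_sum]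
    refine Finset.sum_congr rfl fun k _ => ?_
    rw [map_smul, Pi.smul_apply, smul_eq_mul]
    show _ = lam⁻¹ ^ d * C0 i k * rh (Gb (fun _ => U⁻¹)) (b' k) q * _
    ring
  have hχ : ∀ q : Fin d → VV n N, ∏ t, dl' (q t).2.2 = ∏ j, θ j ^ (∑ t, -e (q t).2.2 j) := by
    intro q
    simp only [hdl]
    rw [Finset.prod_comm]
    exact Finset.prod_congr rfl fun j _ => zp_sum (hθ j) _ _
  have hw : ∀ (q : Fin d → VV n N) (j : Fin s), |∑ t, -e (q t).2.2 j| ≤ ((d * E1 : ℕ) : ℤ) := by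
    intro q j
    refine (Finset.abs_sum_le_sum_abs _ _).trans ?_
    refine (Finset.sum_le_card_nsmul _ _ (E1 : ℤ) (fun t _ => by rw [abs_neg]; exact he _ _)).trans ?_
    rw [Finset.card_univ, Fintype.card_fin, nsmul_eq_mul]
    push_cast
    exact le_rfl
  have hEE : ∀ l v, EE v ∈ Hl (Submodule.span ℂ (Set.range a)) l := by
    intro l
    refine hcod _ (fun X hX Y hY => Hl_br hX hY) fun v => ?_
    exact rank_bound hK' hKD hy hG hV haK hali hinjV hBK hθ hw hχ hM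
      ((dexp_mono hrle).trans hδ) l v
  have hspan : Submodule.span ℂ (Set.range a) = (ST T d).map (rh (Gb W)) := by
    rw [← hbspan, Submodule.map_span, ← Set.range_comp]
    rfl
  have hstab := fun (g : Fin N → Matrix (Fin n) (Fin n) ℂ) (hg : ∀ l, g l ∈ SpS ℂ n) => stab_all (d := d) hn hEE hg
  intro a0 ha0 h hh
  set g : Fin N → Matrix (Fin n) (Fin n) ℂ := fun l => (x * y l)⁻¹ * h l * (x * y l) with hg
  have hPJ : ∀ l, (x * y l) * jm ℂ n * (x * y l)ᵀ = μ • jm ℂ n := by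
    intro l
    have h1 : y l * jm ℂ n * (y l)ᵀ = jm ℂ n := hy l
    calc (x * y l) * jm ℂ n * (x * y l)ᵀ = x * (y l * jm ℂ n * (y l)ᵀ) * xᵀ := by
          rw [transpose_mul]
          simp only [Matrix.mul_assoc]
      _ = μ • jm ℂ n := by rw [h1, hxJ]
  have hgs : ∀ l, g l ∈ SpS ℂ n := fun l => sp_conj' hn hμ (hPJ l) (hh l)
  have h1 : rh (Gb W) a0 ∈ Submodule.span ℂ (Set.range a) := by
    rw [hspan]
    exact ⟨a0, ha0, rfl⟩
  have h2 := hstab g hgs _ h1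
  rw [hspan] at h2
  obtain ⟨a3, ha3, h3⟩ := h2
  have h4 : Fx (rh (Gb W) a3) (c * fun l => (W l)⁻¹) = Fx (rh (Gb g) (rh (Gb W) a0)) (c * fun l => (W l)⁻¹) := by
    rw [h3]
  rw [Fx_rh, Fx_rh, Fx_rh] at h4
  have h5 : c * (fun l => (W l)⁻¹) * W = c := by
    rw [mul_assoc, hWW, mul_one]
  have h6 : c * (fun l => (W l)⁻¹) * g * W = fun l => h l * c l := by
    funext l
    show c l * (W l)⁻¹ * g l * W l = h l * c l
    have h7 : c l * (W l)⁻¹ = x * y l := by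
      rw [hc l, Matrix.mul_assoc, hWW', Matrix.mul_one]
    have h8 : (x * y l) * (x * y l)⁻¹ = 1 := mul_nonsing_inv _ (tor_det hn hμ (hPJ l)).1
    rw [h7]
    calc x * y l * ((x * y l)⁻¹ * h l * (x * y l)) * W l = ((x * y l) * (x * y l)⁻¹) * h l * (x * y l * W l) := by
          simp only [Matrix.mul_assoc]
      _ = h l * c l := by rw [h8, Matrix.one_mul, hc l]
  rw [h5, h6] at h4
  rw [← h4]
  exact ha3 c hcT

end Pool.Agent.T44.EF
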