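import Pool.Agent.T44.EF.Rank
import Pool.Agent.T44.EF.Stm

/-!
# Homogeneous relations on a subtorsor hold on its symplectic translates
-/

set_option autoImplicit false
set_option linter.unusedSectionVars false

open Matrix

namespace Pool.Agent.T44.EF

open Pool.Agent.Y118.HP Pool.Agent.Y123.ST Pool.Agent.TH119.DR Pool.Agent.TH119.MX Pool.Agent.TH127.PT

variable {n N d r s : ℕ} {K : Subfield ℂ}

theorem Gb_sg (l : Fin N) (v : Fin n → ℂ) (τ : ℂ) : Gb (sg l (TV v τ)) = 1 + τ • Gb (Pi.single l (EE v)) := by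
  rw [← Gb_one, ← Gb_smul, ← Gb_add]
  congr 1
  funext k
  by_cases h : k = l
  · subst h
    rw [sg_same, Pi.add_apply, Pi.smul_apply, Pi.single_eq_same]
    rfl
  · rw [sg_ne h, Pi.add_apply, Pi.smul_apply, Pi.single_eq_of_ne h, smul_zero, add_zero]
    rfl

theorem sg_mul' (j : Fin N) (a b : Matrix (Fin n) (Fin n) ℂ) : sg j (a * b) = sg j a * sg j b := by
  funext k
  by_cases h : k = j
  · subst h
    rw [sg_same, Pi.mul_apply, sg_same, sg_same]
  · rw [sg_ne h, Pi.mul_apply, sg_ne h, sg_ne h, one_mul]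

/-- stability under the product of the symplectic groups -/
theorem stab_all (hn : Even n) {S : Submodule ℂ ((Fin d → VV n N) → ℂ)} (hS : ∀ l v, EE v ∈ Hl S l)
    {g : Fin N → Matrix (Fin n) (Fin n) ℂ} (hg : ∀ l, g l ∈ SpS ℂ n) : ∀ a ∈ S, rh (Gb g) a ∈ S := by
  have h1 : ∀ (l : Fin N) (g : Matrix (Fin n) (Fin n) ℂ), g ∈ SpS ℂ n → ∀ a ∈ S, rh (Gb (sg l g)) a ∈ S := by
    intro l
    let M : Submonoid (Matrix (Fin n) (Fin n) ℂ) :=
      { carrier := {g | ∀ a ∈ S, rh (Gb (sg l g)) a ∈ S}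
        one_mem' := by
          intro a ha
          have : sg l (1 : Matrix (Fin n) (Fin n) ℂ) = 1 := by
            unfold sg
            exact Function.update_eq_self l (1 : Fin N → Matrix (Fin n) (Fin n) ℂ)
          rw [this, Gb_one, rh_one]
          exact ha
        mul_mem' := by
          intro x y hx hy a ha
          rw [sg_mul', ← Gb_mul, ← rh_mul, Module.End.mul_apply]
          exact hx _ (hy a ha) }
    refine sp_gen hn M fun v τ a ha => ?_
    rw [Gb_sg]
    refine rh_stab ?_ S ?_ a ha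
    · rw [smul_mul_smul_comm, Gb_mul, single_mul', EE_sq, Pi.single_zero]
      have : Gb (0 : Fin N → Matrix (Fin n) (Fin n) ℂ) = 0 := by
        have := Gb_smul (n := n) (N := N) 0 0
        rwa [zero_smul, zero_smul] at this
      rw [this, smul_zero]
    · intro u hu
      rw [map_smul]
      exact S.smul_mem _ (hS l v u hu)
  have key : ∀ t : Finset (Fin N), ∀ a ∈ S, rh (Gb (fun j => if j ∈ t then g j else 1)) a ∈ S := by
    intro t
    induction t using Finset.induction_on with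
    | empty =>
      intro a ha
      have : (fun j : Fin N => if j ∈ (∅ : Finset (Fin N)) then g j else 1) = 1 := by
        funext j
        simp
      rw [this, Gb_one, rh_one]
      exact ha
    | insert j t hj ih =>
      intro a ha
      have h2 : (fun k => if k ∈ insert j t then g k else 1) = sg j (g j) * fun k => if k ∈ t then g k else 1 := by
        funext k
        by_cases h : k = j
        · subst h
          rw [Pi.mul_apply, sg_same, if_pos (Finset.mem_insert_self _ _), if_neg hj, mul_one]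
        · rw [Pi.mul_apply, sg_ne h, one_mul]
          simp [Finset.mem_insert, h]
      rw [h2, ← Gb_mul, ← rh_mul, Module.End.mul_apply]
      exact h1 j _ (hg j) _ (ih a ha)
  intro a ha
  have h2 := key Finset.univ a ha
  simpa using h2

/-- a basis over `K` -/
theorem exists_Kbasis {ι : Type} [Fintype ι] {S : Submodule ℂ (ι → ℂ)} (h : DefOver K S)
    (hr : Module.finrank ℂ S = r) : ∃ a : Fin r → ι → ℂ, (∀ i q, a i q ∈ K) ∧ LinearIndependent ℂ a ∧
      Submodule.span ℂ (Set.range a) = S := by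
  classical
  have h1 : Submodule.span ℂ {w : ι → ℂ | w ∈ S ∧ ∀ q, w q ∈ K} = S :=
    le_antisymm (Submodule.span_le.2 fun w hw => hw.1) h
  obtain ⟨f, hf1, hf2, hf3⟩ := Submodule.exists_fun_fin_finrank_span_eq ℂ {w : ι → ℂ | w ∈ S ∧ ∀ q, w q ∈ K}
  have hf2' := hf2.trans h1
  have h2 : Module.finrank ℂ (Submodule.span ℂ {w : ι → ℂ | w ∈ S ∧ ∀ q, w q ∈ K}) = r := by rw [h1, hr]
  subst h2
  exact ⟨f, fun i => (hf1 i).2, hf3, hf2'⟩

variable {T : Set (Matrix (Fin n × Fin N) (Fin n × Fin N) ℂ)}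

/-- the tensors which vanish on `T` -/
def ST (T : Set (Matrix (Fin n × Fin N) (Fin n × Fin N) ℂ)) (d : ℕ) : Submodule ℂ ((Fin d → VV n N) → ℂ) where
  carrier := {a | ∀ X : Fin N → Matrix (Fin n) (Fin n) ℂ, bd X ∈ T → Fx a X = 0}
  zero_mem' := by
    intro X _
    simp [Fx, Fm]
  add_mem' := by
    intro a b ha hb X hX
    unfold Fx at *
    rw [Fm_add', ha X hX, hb X hX, add_zero]
  smul_mem' := by
    intro c a ha X hX
    unfold Fx at *
    rw [Fm_smul', ha X hX, mul_zero]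

/-- the tensors which vanish on the left group -/
def SG (T : Set (Matrix (Fin n × Fin N) (Fin n × Fin N) ℂ)) (d : ℕ) : Submodule ℂ ((Fin d → VV n N) → ℂ) where
  carrier := {a | ∀ X Y : Fin N → Matrix (Fin n) (Fin n) ℂ, bd X ∈ T → bd Y ∈ T → Fx a (fun j => X j * (Y j)⁻¹) = 0}
  zero_mem' := by
    intro X Y _ _
    simp [Fx, Fm]
  add_mem' := by
    intro a b ha hb X Y hX hY
    unfold Fx at *
    rw [Fm_add', ha X Y hX hY, hb X Y hX hY, add_zero]
  smul_mem' := by
    intro c a ha X Y hX hY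
    unfold Fx at *
    rw [Fm_smul', ha X Y hX hY, mul_zero]

theorem Fx_aut (σ : ℂ ≃+* ℂ) (a : (Fin d → VV n N) → ℂ) (X : Fin N → Matrix (Fin n) (Fin n) ℂ) :
    σ (Fx a X) = Fx (fun I => σ (a I)) (fun j => (X j).map σ) := by
  unfold Fx Fm
  rw [map_sum]
  refine Finset.sum_congr rfl fun I _ => ?_
  rw [map_mul, map_prod]
  rfl

theorem ST_def (hT : IsSubtorsor K T) (d : ℕ) : DefOver K (ST T d) := by
  refine defOver_of_aut _ fun σ hσ a ha X hX => ?_
  have h1 : bd (fun j => (X j).map σ.symm) ∈ T := by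
    rw [← bd_map]
    exact aut_mem hT (symm_fix hσ) hX
  have h2 := congrArg σ (ha _ h1)
  rw [map_zero, Fx_aut] at h2
  rw [← h2]
  congr 1
  funext j
  ext x y
  simp

theorem map_inv' (σ : ℂ ≃+* ℂ) {Y : Matrix (Fin n) (Fin n) ℂ} (hY : IsUnit Y.det) : (Y⁻¹).map σ = (Y.map σ)⁻¹ := by
  symm
  apply inv_eq_right_inv
  have h1 : (Y * Y⁻¹).map σ = (1 : Matrix (Fin n) (Fin n) ℂ).map σ := by rw [mul_nonsing_inv Y hY]
  have h2 := Matrix.map_mul (f := (σ : ℂ →+* ℂ)) (L := Y) (M := Y⁻¹)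
  have h3 : (Y * Y⁻¹).map σ = Y.map σ * (Y⁻¹).map σ := h2
  rw [← h3, h1]
  exact Matrix.map_one _ (map_zero σ) (map_one σ)

theorem SG_def (hT : IsSubtorsor K T) (hdet : ∀ X : Fin N → Matrix (Fin n) (Fin n) ℂ, bd X ∈ T → ∀ j, IsUnit (X j).det)
    (d : ℕ) : DefOver K (SG T d) := by
  refine defOver_of_aut _ fun σ hσ a ha X Y hX hY => ?_
  have h1 : bd (fun j => (X j).map σ.symm) ∈ T := by
    rw [← bd_map]
    exact aut_mem hT (symm_fix hσ) hX
  have h1' : bd (fun j => (Y j).map σ.symm) ∈ T := by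
    rw [← bd_map]
    exact aut_mem hT (symm_fix hσ) hY
  have h2 := congrArg σ (ha _ _ h1 h1')
  rw [map_zero, Fx_aut] at h2
  rw [← h2]
  congr 1
  funext j
  have h3 : ((X j).map σ.symm * ((Y j).map σ.symm)⁻¹).map σ = ((X j).map σ.symm).map σ * (((Y j).map σ.symm)⁻¹).map σ :=
    Matrix.map_mul (f := (σ : ℂ →+* ℂ)) (L := (X j).map σ.symm) (M := ((Y j).map σ.symm)⁻¹)
  rw [h3, map_inv' σ (hdet _ h1' j)]
  have h4 : ∀ Z : Matrix (Fin n) (Fin n) ℂ, (Z.map σ.symm).map σ = Z := by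
    intro Z
    ext x y
    simp
  rw [h4, h4]

/-- diagonal matrices -/
theorem rh_diag (δ : Fin n → ℂ) (u : (Fin d → VV n N) → ℂ) (q : Fin d → VV n N) :
    rh (Gb (fun _ => diagonal δ)) u q = (∏ t, δ (q t).2.2) * u q := by
  rw [rh_apply, Finset.sum_eq_single q]
  · rw [mul_comm]
    congr 1
    refine Finset.prod_congr rfl fun t _ => ?_
    rw [Gb_apply]
    simp
  · intro J _ hJ
    obtain ⟨t, ht⟩ : ∃ t, J t ≠ q t := by
      by_contra hcon
      push Not at hcon
      exact hJ (funext hcon)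
    rw [Finset.prod_eq_zero (Finset.mem_univ t), mul_zero]
    rw [Gb_apply]
    split_ifs with h
    · rw [diagonal_apply_ne]
      intro h3
      exact ht (Prod.ext h.1.symm (Prod.ext h.2.symm h3.symm))
    · rfl
  · intro h
    exact absurd (Finset.mem_univ _) h

theorem rh_inj {A A' : Matrix (VV n N) (VV n N) ℂ} (h : A' * A = 1) : Function.Injective (rh (d := d) A) := by
  intro u u' huu
  have h1 := congrArg (rh (d := d) A') huu
  rw [← Module.End.mul_apply, ← Module.End.mul_apply, rh_mul, h, rh_one] at h1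
  exact h1

theorem rh_mem {A : Matrix (VV n N) (VV n N) ℂ} (hA : ∀ v w, A v w ∈ K) {u : (Fin d → VV n N) → ℂ}
    (hu : ∀ q, u q ∈ K) (q : Fin d → VV n N) : rh A u q ∈ K := by
  rw [rh_apply]
  exact K.sum_mem fun J _ => K.mul_mem (hu J) (K.prod_mem fun t _ => hA _ _)

theorem Gb_mem {g : Fin N → Matrix (Fin n) (Fin n) ℂ} (hg : ∀ l i j, g l i j ∈ K) (v w : VV n N) : Gb g v w ∈ K := by
  rw [Gb_apply]
  split_ifs
  · exact hg _ _ _
  · exact K.zero_mem

end Pool.Agent.T44.EF
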